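import Pool.Agent.Work.MP_707689_an.N.Defs

/-! Null sets and continuous vectors for a family of weights, as used in the statement. -/

open MeasureTheory Set
open scoped ENNReal

namespace Pool.Agent.Work.MP_707689_an.N

variable {H : Type} [NormedAddCommGroup H] [InnerProductSpace ℂ H] [CompleteSpace H] {n : ℕ}

/-- the box with centre `x` and half sides `1 / Φ j k` -/
def box (Φ : Fin n → ℕ → ℝ) (k : ℕ) (x : Fin n → ℝ) : Set (Fin n → ℝ) :=
  {y | ∀ j, Φ j k * |y j - x j| ≤ 1}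

/-- `S` has countable covers by boxes of orders `k i ≥ 1` with arbitrarily small sum of `1 / k i` -/
def Null (Φ : Fin n → ℕ → ℝ) (S : Set (Fin n → ℝ)) : Prop :=
  ∀ ε : ℝ≥0∞, 0 < ε → ∃ (ι : Type) (_ : Countable ι) (k : ι → ℕ) (x : ι → Fin n → ℝ),
    (∀ i, 1 ≤ k i) ∧ S ⊆ ⋃ i, box Φ (k i) (x i) ∧ ∑' i, (k i : ℝ≥0∞)⁻¹ ≤ ε

/-- the vector `x` is annihilated by `E S` for all Borel null sets `S` of the weights `Φ` -/
def Cont (Φ : Fin n → ℕ → ℝ) (E : Set (Fin n → ℝ) → H →L[ℂ] H) (x : H) : Prop :=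
  ∀ S, MeasurableSet S → Null Φ S → E S x = 0

end Pool.Agent.Work.MP_707689_an.N
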