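import Pool.Agent.Work.MP_707689_an.G.Main
import Pool.Agent.Work.MP_707689_an.F.Defs

/-! Frames with a Bessel bound localized along the polygonal curves. -/

open MeasureTheory Set Filter Topology
open scoped ENNReal NNReal InnerProductSpace

namespace Pool.Agent.Work.MP_707689_an.N.G.F

variable {H : Type} [NormedAddCommGroup H] [InnerProductSpace ℂ H] [CompleteSpace H] {n : ℕ}

/-- admissible vertices of the polygonal curve -/
structure Wt (φ : ℕ → Fin n → ℝ) (θ : ℝ) : Prop where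
  zero : φ 0 = 0
  mono : ∀ m j, φ m j ≤ φ (m + 1) j
  pos : ∀ m j, 0 < φ (m + 1) j
  dbl : ∀ m j, φ (m + 2) j ≤ θ * φ (m + 1) j
  lt : θ < 2
  tpos : 0 < θ

/-- the normalized image of the cube on a segment -/
noncomputable def sm (φ : ℕ → Fin n → ℝ) (m : ℕ) (τ : ℝ) : Measure (Fin n → ℝ) :=
  (2 ^ m : ℝ≥0∞) • (volume.restrict (Q n)).map (seg φ (m + 1) τ)

/-- a bound for the averages along all segments -/
def Loc (φ : ℕ → Fin n → ℝ) (g : (Fin n → ℝ) → ℝ≥0∞) (d : ℝ≥0∞) : Prop :=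
  ∀ (m : ℕ) (τ : ℝ), 0 ≤ τ → ∫⁻ k, g k ∂sm φ m τ ≤ d

/-- bounded continuous family with a localized Bessel bound -/
structure Frame (φ : ℕ → Fin n → ℝ) (M : ℝ≥0) (v : (Fin n → ℝ) → H) : Prop where
  cont : Continuous v
  bdd : ∀ k, ‖v k‖ₑ ≤ M
  bessel : ∀ h : H, Loc φ (fun k => ‖⟪h, v k⟫_ℂ‖ₑ ^ 2) ((M * ‖h‖ₑ) ^ 2)

variable {φ : ℕ → Fin n → ℝ} {θ : ℝ} {M : ℝ≥0} {v w : (Fin n → ℝ) → H}

theorem seg_le {g : (Fin n → ℝ) → ℝ≥0∞} (hg : Measurable g) {d : ℝ≥0∞} (hd : Loc φ g d) (m : ℕ)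
    {τ : ℝ} (hτ : 0 ≤ τ) :
    ∫⁻ u in Q n, g (seg φ (m + 1) τ u) ≤ ENNReal.ofReal (2 ^ m)⁻¹ * d := by
  have h := hd m τ hτ
  rw [sm, lintegral_smul_measure, lintegral_map hg (seg_meas φ _ _), smul_eq_mul] at h
  rw [ENNReal.ofReal_inv_of_pos (by positivity), ENNReal.ofReal_pow zero_le_two,
    ENNReal.ofReal_ofNat]
  refine le_trans (le_of_eq ?_) (mul_le_mul_right h _)
  rw [← mul_assoc, ENNReal.inv_mul_cancel (by simp) (by simp), one_mul]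

theorem Frame.map (hv : Frame φ M v) {U : H →L[ℂ] H} (hU : ‖U‖ ≤ 1) :
    Frame φ M fun k => U (v k) :=
  ⟨U.continuous.comp hv.cont, fun k => (enorm_app hU _).trans (hv.bdd k), fun h m τ hτ => by
    simp only [← ContinuousLinearMap.adjoint_inner_left]
    refine (hv.bessel _ m τ hτ).trans ?_
    gcongr
    exact enorm_app (by simpa using hU) h⟩

omit [CompleteSpace H] in
theorem meas_pair (hv : Frame φ M v) (hw : Frame φ M w) (D : H →L[ℂ] H) :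
    Measurable fun k => ‖⟪w k, D (v k)⟫_ℂ‖ₑ :=
  (hw.cont.inner (D.continuous.comp hv.cont)).measurable.enorm

omit [CompleteSpace H] in
theorem pair_le (hv : Frame φ M v) (hw : Frame φ M w) (D : H →L[ℂ] H) (k : Fin n → ℝ) :
    ‖⟪w k, D (v k)⟫_ℂ‖ₑ ≤ M ^ 2 * ‖D‖ₑ := by
  have h1 : ‖⟪w k, D (v k)⟫_ℂ‖ₑ ≤ ‖w k‖ₑ * (‖D‖ₑ * ‖v k‖ₑ) := by
    simp only [enorm_eq_nnnorm, ← ENNReal.coe_mul, ENNReal.coe_le_coe]
    exact (nnnorm_inner_le_nnnorm _ _).trans (by gcongr; exact D.le_opNNNorm _)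
  refine h1.trans ((mul_le_mul' (hw.bdd k) (mul_le_mul_right (hv.bdd k) _)).trans (le_of_eq ?_))
  ring

omit [CompleteSpace H] in
theorem Frame.meas (hv : Frame φ M v) (h : H) : Measurable fun k => ‖⟪h, v k⟫_ℂ‖ₑ :=
  (continuous_const.inner hv.cont).measurable.enorm

theorem lint_rank (hv : Frame φ M v) (hw : Frame φ M w) {r : ℕ} {D : H →L[ℂ] H} (hD : Rk r D) :
    Loc φ (fun k => ‖⟪w k, D (v k)⟫_ℂ‖ₑ) (M ^ 2 * ‖D‖ₑ * r) := by
  intro s τ hτ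
  obtain ⟨m, e, f, hn, he, hf, h⟩ := hD.decomp
  refine (lintegral_mono fun k => h _ _).trans ?_
  rw [lintegral_finsetSum _ fun i _ => (hw.meas _).fun_mul (hv.meas _)]
  refine (Finset.sum_le_sum (g := fun _ => (M : ℝ≥0∞) ^ 2 * ‖D‖ₑ) fun i _ => ?_).trans ?_
  · refine (cs (hw.meas _) (hv.meas _) (hw.bessel _ s τ hτ) (hv.bessel _ s τ hτ)).trans ?_
    refine (mul_le_mul' (mul_le_mul_right (he i) _) (mul_le_mul_right (hf i) _)).trans
      (le_of_eq ?_)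
    ring
  · rw [Finset.sum_const, Finset.card_univ, Fintype.card_fin, nsmul_eq_mul, mul_comm]
    gcongr

omit [CompleteSpace H] in
theorem inner_le_frame (hw : Frame φ M w) (e : H) (k : Fin n → ℝ) :
    ‖⟪e, w k⟫_ℂ‖ₑ ≤ ‖e‖ₑ * M := by
  refine le_trans ?_ (mul_le_mul_right (hw.bdd k) _)
  simp only [enorm_eq_nnnorm, ← ENNReal.coe_mul, ENNReal.coe_le_coe]
  exact nnnorm_inner_le_nnnorm _ _

end Pool.Agent.Work.MP_707689_an.N.G.F
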