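import Pool.Agent.Results.MP_707689_an.FractalWave

/-! Check: the earlier theorem with Lebesgue measure follows from the new one. -/

open MeasureTheory Set Filter Topology Complex Metric
open scoped ENNReal NNReal InnerProductSpace

namespace Pool.Agent.Work.MP_707689_an.N.G.F

variable {n : ℕ} {Φ : Fin n → ℕ → ℝ}

theorem fm_vol (hp : ∀ j k, 1 ≤ k → 0 < Φ j k) (hs : ∀ k : ℕ, 1 ≤ k → (k : ℝ) ≤ ∏ j, Φ j k) :
    Fm Φ volume := by
  refine ⟨2 ^ n, fun k hk x => ?_⟩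
  have e : box Φ k x ⊆ Icc (fun j => x j - 1 / Φ j k) fun j => x j + 1 / Φ j k := fun y hy => by
    have h1 : ∀ j, |y j - x j| ≤ 1 / Φ j k := fun j => (le_div_iff₀' (hp j k hk)).2 (hy j)
    exact ⟨fun j => by linarith [(abs_le.1 (h1 j)).1], fun j => by linarith [(abs_le.1 (h1 j)).2]⟩
  refine (mul_le_mul_right (measure_mono e) _).trans ?_
  have h0 : ∀ j, 0 ≤ x j + 1 / Φ j k - (x j - 1 / Φ j k) := fun j => by
    have := one_div_pos.2 (hp j k hk)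
    linarith
  rw [Real.volume_Icc_pi, ← ENNReal.ofReal_prod_of_nonneg fun j _ => h0 j, ← ENNReal.ofReal_natCast,
    ← ENNReal.ofReal_mul (Nat.cast_nonneg _), ← ENNReal.ofReal_coe_nnreal]
  refine ENNReal.ofReal_le_ofReal ((mul_le_mul_of_nonneg_right (hs k hk)
    (Finset.prod_nonneg fun j _ => h0 j)).trans (le_of_eq ?_))
  rw [← Finset.prod_mul_distrib, Finset.prod_congr rfl (g := fun _ => (2 : ℝ)) fun j _ => by
    have := hp j k hk
    field_simp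
    ring]
  simp

theorem old_of_new (H : Type) [NormedAddCommGroup H] [InnerProductSpace ℂ H] [CompleteSpace H]
    (n : ℕ) (A B : Fin n → H →L[ℂ] H) (E E' : Set (Fin n → ℝ) → H →L[ℂ] H)
    (hE : IsSpec A E) (hE' : IsSpec B E')
    (Φ : Fin n → ℕ → ℝ) (θ : ℝ) (hθ : θ < 2) (hm : ∀ j, Monotone (Φ j)) (hp : ∀ j, 0 ≤ Φ j 1)
    (hd : ∀ j k, 1 ≤ k → Φ j (2 * k) ≤ θ * Φ j k)
    (hs : ∀ k : ℕ, 1 ≤ k → (k : ℝ) ≤ ∏ j, Φ j k)
    (hK : ∀ j, Summable fun k : ℕ => sv (A j - B j) k * Φ j (k + 1) / ((k : ℝ) + 1)) :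
    ∃ W : H →L[ℂ] H,
      (∀ (ι : Type) (l : Filter ι) [l.IsCountablyGenerated] (f : ι → (Fin n → ℝ) → ℂ)
        (S T : ι → H →L[ℂ] H), (∀ i, Measurable (f i)) → (∀ i y, ‖f i y‖ = 1) →
        (∀ g : (Fin n → ℝ) → ℂ, Integrable g → Tendsto (fun i => ∫ y, f i y * g y) l (𝓝 0)) →
        (∀ i, IsInt E (f i) (S i)) → (∀ i, IsInt E' (f i) (T i)) →
        ∀ x, AC E x → Tendsto (fun i => star (T i) (S i x)) l (𝓝 (W x))) ∧
      (∀ x, AC E x → ‖W x‖ = ‖x‖ ∧ ∀ j, W (A j x) = B j (W x)) ∧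
      W '' {x | AC E x} = {y | AC E' y} := by
  have hp1 : ∀ j, 0 < Φ j 1 := fun j => (hp j).lt_of_ne' fun h0 => by
    have h1 := hs 1 le_rfl
    rw [Finset.prod_eq_zero (Finset.mem_univ j) h0] at h1
    norm_num at h1
  have hv := fm_vol (fun j k hk => (hp1 j).trans_le (hm j hk)) hs
  have ct : ∀ {E : Set (Fin n → ℝ) → H →L[ℂ] H} x, AC E x → Cont Φ E x :=
    fun x hx S hS h0 => hx S hS (hv.null h0)
  obtain ⟨W, h1, h2, h3⟩ := Pool.Agent.Results.MP_707689_an.FractalWave.result H n A B E E' hE hE'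
    Φ θ hθ hm hp1 hd hK
  obtain ⟨μ, h, m⟩ := hE.sp
  refine ⟨W, fun ι l _ f S T c1 c2 c3 iS iT x hx => h1 ι l f S T c1 c2 iS iT x (ct x hx) ?_,
    fun x hx => ⟨(h2 x (ct x hx)).1, (h2 x (ct x hx)).2.1⟩, Subset.antisymm ?_ fun y hy => ?_⟩
  · refine px_null (ρ := volume) h.pv
      (fun i => ⟨c1 _, fun z => (iS _ z _ (m z)).1, fun z => (iS _ z _ (m z)).2⟩)
      (fun z hz => ?_) hx
    have := h.pv.fin z
    refine (c3 (fun y => (((μ z).rnDeriv volume y).toReal : ℂ))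
      (Measure.integrable_toReal_rnDeriv.ofReal)).congr fun i => ?_
    rw [← integral_rnDeriv_smul (px_ac h.pv hz)]
    simp only [real_smul, mul_comm]
  · rintro _ ⟨x, hx, rfl⟩ S hS h0
    rw [← (h2 x (ct x hx)).2.2 S hS, hx S hS h0, map_zero]
  · obtain ⟨x, hx, rfl⟩ := h3.ge (ct y hy)
    refine ⟨x, fun S hS h0 => ?_, rfl⟩
    have cx : Cont Φ E (E S x) := fun T hT h4 => by
      rw [← mul_apply_eq_comp, ← hE.inter T S hT hS, inter_comm, hE.inter S T hS hT,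
        mul_apply_eq_comp, hx T hT h4, map_zero]
    rw [← norm_eq_zero, ← (h2 _ cx).1, (h2 x hx).2.2 S hS, hy S hS h0, norm_zero]

end Pool.Agent.Work.MP_707689_an.N.G.F
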