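import Pool.Agent.Work.MP_707689_an.F.Base

/-! A local Plancherel bound for measures with small mass on boxes. -/

open MeasureTheory Set Filter Topology Complex Metric
open scoped ENNReal NNReal InnerProductSpace ComplexConjugate Real

namespace Pool.Agent.Work.MP_707689_an.N.G.F

variable {n : ℕ}

theorem cs2 {α : Type*} [MeasurableSpace α] {μ : Measure α} {a b : α → ℝ≥0∞} (ha : Measurable a)
    (hb : Measurable b) :
    (∫⁻ x, a x * b x ∂μ) ^ 2 ≤ (∫⁻ x, a x ^ 2 ∂μ) * ∫⁻ x, b x ^ 2 ∂μ := by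
  have e : ∀ x : ℝ≥0∞, (x ^ (1 / 2 : ℝ)) ^ 2 = x := fun x => by
    rw [← ENNReal.rpow_two, ← ENNReal.rpow_mul]
    simp
  refine (pow_le_pow_left' (cs ha hb (e _).ge (e _).ge) 2).trans (le_of_eq ?_)
  rw [mul_pow, e, e]

theorem ch_add' (k p s : Fin n → ℝ) : ch k (p + s) = ch k p * ch k s := by
  simp only [ch, Pi.add_apply, mul_add, Finset.sum_add_distrib, ofReal_add, exp_add]

theorem swapB {μ : Measure (Fin n → ℝ)} [SFinite μ] {T : (Fin n → ℝ) → Fin n → ℝ}
    (hT : Measurable T) (r : ℝ) {a : (Fin n → ℝ) → ℝ≥0∞} (ha : Measurable a) :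
    ∫⁻ y, ∫⁻ p, (closedBall (0 : Fin n → ℝ) r).indicator 1 (y - T p) * a p ∂μ =
      volume (closedBall (0 : Fin n → ℝ) r) * ∫⁻ p, a p ∂μ := by
  have mB : MeasurableSet (closedBall (0 : Fin n → ℝ) r) := measurableSet_closedBall
  have m1 : Measurable ((closedBall (0 : Fin n → ℝ) r).indicator (1 : (Fin n → ℝ) → ℝ≥0∞)) :=
    measurable_one.indicator mB
  rw [lintegral_lintegral_swap (((m1.comp (measurable_fst.sub (hT.comp measurable_snd))).mul
    (ha.comp measurable_snd)).aemeasurable), ← lintegral_const_mul _ ha]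
  refine lintegral_congr fun p => ?_
  rw [lintegral_mul_const (f := fun y => (closedBall (0 : Fin n → ℝ) r).indicator 1 (y - T p)) _
    (m1.comp (measurable_id.sub_const _)), lintegral_sub_right_eq_self, lintegral_indicator_one mB]

theorem psi_ge {u : Fin n → ℝ} (hu : u ∈ Q n) :
    (volume (closedBall (0 : Fin n → ℝ) (1 / (2 * (n + 1))))).toReal / 2 ≤
      ‖∫ s in closedBall (0 : Fin n → ℝ) (1 / (2 * (n + 1))), ch (-u) s‖ := by
  set B := closedBall (0 : Fin n → ℝ) (1 / (2 * (n + 1))) with hB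
  have fB : volume B < ∞ := measure_closedBall_lt_top
  have : IsFiniteMeasure (volume.restrict B) := isFiniteMeasure_restrict.2 fB.ne
  have i1 : Integrable (ch (-u)) (volume.restrict B) :=
    .of_bound (ch_cont _).aestronglyMeasurable 1 (.of_forall fun p => (ch_norm _ p).le)
  have h1 : ‖∫ s in B, (ch (-u) s - 1)‖ ≤ 1 / 2 * volume.real B := by
    refine norm_setIntegral_le_of_norm_le_const fB fun s hs => ?_
    refine Real.norm_exp_I_mul_ofReal_sub_one_le.trans ((norm_sum_le _ _).trans ?_)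
    have h2 : ∀ j, ‖(-u) j * s j‖ ≤ 1 / (2 * (n + 1)) := fun j => by
      rw [norm_mul, Pi.neg_apply, norm_neg, Real.norm_of_nonneg (hu.1 j)]
      exact (mul_le_of_le_one_left (norm_nonneg _) (hu.2 j)).trans
        ((norm_le_pi_norm s j).trans (mem_closedBall_zero_iff.1 hs))
    refine (Finset.sum_le_sum fun j _ => h2 j).trans ?_
    rw [Finset.sum_const, Finset.card_univ, Fintype.card_fin, nsmul_eq_mul, mul_one_div,
      div_le_div_iff₀ (by positivity) (by positivity)]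
    linarith
  rw [integral_sub i1 (integrable_const _), setIntegral_const] at h1
  have h3 := norm_sub_norm_le (volume.real B • (1 : ℂ)) (∫ s in B, ch (-u) s)
  rw [norm_sub_rev, norm_smul, norm_one, mul_one, Real.norm_of_nonneg measureReal_nonneg] at h3
  change volume.real B / 2 ≤ _
  linarith

theorem fb (n : ℕ) : ∃ c : ℝ≥0, ∀ (μ : Measure (Fin n → ℝ)) [SFinite μ]
    (T : (Fin n → ℝ) → Fin n → ℝ) (g : (Fin n → ℝ) → ℂ) (δ : ℝ≥0∞), Measurable T → Measurable g →
    Integrable g μ → ∫⁻ p, ‖g p‖ₑ ^ 2 ∂μ ≠ ∞ → δ ≠ ∞ → (∀ y, μ {p | ‖y - T p‖ ≤ 1} ≤ δ) →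
    ∫⁻ u in Q n, ‖∫ p, ch (-u) (T p) * g p ∂μ‖ₑ ^ 2 ≤ c * δ * ∫⁻ p, ‖g p‖ₑ ^ 2 ∂μ := by
  set r : ℝ := 1 / (2 * (n + 1)) with hr
  have r0 : 0 < r := by positivity
  have r1 : r ≤ 1 := by
    rw [hr, div_le_one (by positivity)]
    have : (0 : ℝ) ≤ n := n.cast_nonneg
    linarith
  set B := closedBall (0 : Fin n → ℝ) r with hB
  have mB : MeasurableSet B := measurableSet_closedBall
  have fB : volume B ≠ ∞ := measure_closedBall_lt_top.ne
  have pB : volume B ≠ 0 := (measure_closedBall_pos _ _ r0).ne'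
  have hc : (2 / volume B) ^ 2 * (ENNReal.ofReal ((2 * π) ^ n) * volume B) ≠ ∞ :=
    ENNReal.mul_ne_top (ENNReal.pow_ne_top (ENNReal.div_ne_top (by simp) pB)) (by finiteness)
  refine ⟨((2 / volume B) ^ 2 * (ENNReal.ofReal ((2 * π) ^ n) * volume B)).toNNReal,
    fun μ _ T g δ hT hg ig h2 hδ hμ => ?_⟩
  rw [ENNReal.coe_toNNReal hc]
  have ms : Measurable fun z : (Fin n → ℝ) × (Fin n → ℝ) => z.1 - T z.2 :=
    measurable_fst.sub (hT.comp measurable_snd)
  set K : (Fin n → ℝ) × (Fin n → ℝ) → ℂ := fun z => B.indicator 1 (z.1 - T z.2) * g z.2 with hK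
  have mK : Measurable K := ((measurable_one.indicator mB).comp ms).mul (hg.comp measurable_snd)
  have nK : ∀ y p, ‖K (y, p)‖ₑ = B.indicator 1 (y - T p) * ‖g p‖ₑ := fun y p => by
    by_cases h : y - T p ∈ B <;> simp [hK, h]
  have iK : Integrable K (volume.prod μ) := ⟨mK.aestronglyMeasurable, by
    rw [hasFiniteIntegral_iff_enorm, lintegral_prod _ mK.enorm.aemeasurable]
    simp only [nK]
    rw [swapB hT r hg.enorm]
    exact ENNReal.mul_lt_top fB.lt_top ig.2⟩
  set G : (Fin n → ℝ) → ℂ := fun y => ∫ p, K (y, p) ∂μ with hG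
  have iG : Integrable G := iK.integral_prod_left
  have h1 : ∫⁻ y, ‖G y‖ₑ ^ 2 ≤ δ * (volume B * ∫⁻ p, ‖g p‖ₑ ^ 2 ∂μ) := by
    rw [← swapB hT r (hg.enorm.pow_const 2), ← lintegral_const_mul' _ _ hδ]
    refine lintegral_mono fun y => ?_
    have m1 : Measurable fun p => B.indicator (1 : (Fin n → ℝ) → ℝ≥0∞) (y - T p) :=
      (measurable_one.indicator mB).comp (measurable_const.sub hT)
    have h3 := cs2 (μ := μ) m1 (m1.fun_mul hg.enorm)
    refine (pow_le_pow_left' ((enorm_integral_le_lintegral_enorm _).trans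
      (lintegral_mono fun p => ?_)) 2).trans (h3.trans (mul_le_mul' (le_trans ?_ (hμ y))
        (lintegral_mono fun p => ?_)))
    · rw [nK]
      by_cases h : y - T p ∈ B <;> simp [h]
    · rw [← lintegral_indicator_one (s := {p | ‖y - T p‖ ≤ 1})
        (measurableSet_le (measurable_const.sub hT).norm measurable_const)]
      refine lintegral_mono fun p => ?_
      by_cases h : y - T p ∈ B
      · have h4 : p ∈ {p | ‖y - T p‖ ≤ 1} := (mem_closedBall_zero_iff.1 h).trans r1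
        simp [h, indicator_of_mem h4]
      · simp [h]
    · by_cases h : y - T p ∈ B <;> simp [h, ← hB]
  have mG : MemLp G 2 volume := ⟨iG.1, by
    have h3 : eLpNorm G 2 volume ^ 2 < ∞ := by
      rw [← lint_sq]
      exact h1.trans_lt (by finiteness)
    simpa using ENNReal.pow_lt_top_iff.mp h3⟩
  have e : ∀ u, ∫ y, ch (-u) y * G y =
      (∫ s in B, ch (-u) s) * ∫ p, ch (-u) (T p) * g p ∂μ := fun u => by
    simp only [hG, ← integral_const_mul]
    rw [integral_integral_swap (f := fun y p => ch (-u) y * K (y, p))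
      (iK.bdd_mul (c := 1) ((ch_cont _).measurable.comp measurable_fst).aestronglyMeasurable
        (.of_forall fun z => (ch_norm _ _).le))]
    refine integral_congr_ae (.of_forall fun p => ?_)
    simp only [hK]
    rw [← integral_add_right_eq_self _ (T p), ← integral_indicator mB, ← integral_mul_const]
    refine integral_congr_ae (.of_forall fun s => ?_)
    by_cases h : s ∈ B <;> simp [h, ch_add', mul_assoc]
  calc _ ≤ ∫⁻ u in Q n, (2 / volume B) ^ 2 * ‖∫ y, ch (-u) y * G y‖ₑ ^ 2 := by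
        refine setLIntegral_mono' measQ fun u hu => ?_
        rw [e, enorm_mul, ← mul_pow, ← mul_assoc]
        refine pow_le_pow_left' (le_mul_of_one_le_left' ?_) 2
        have h3 := ENNReal.ofReal_le_ofReal (psi_ge hu)
        rw [ofReal_norm, ENNReal.ofReal_div_of_pos two_pos, ENNReal.ofReal_toReal fB,
          ENNReal.ofReal_ofNat] at h3
        refine le_trans (le_of_eq ?_) (mul_le_mul_right h3 _)
        rw [div_eq_mul_inv, div_eq_mul_inv, mul_assoc, ← mul_assoc _ (volume B),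
          ENNReal.inv_mul_cancel pB fB, one_mul, ENNReal.mul_inv_cancel (by simp) (by simp)]
    _ ≤ (2 / volume B) ^ 2 * ∫⁻ u, ‖∫ y, ch (-u) y * G y‖ₑ ^ 2 := by
        rw [← lintegral_const_mul' _ _ (ENNReal.pow_ne_top (ENNReal.div_ne_top (by simp) pB))]
        exact setLIntegral_le_lintegral _ _
    _ ≤ _ := by
        rw [plancherel iG mG]
        refine (mul_le_mul_right (mul_le_mul_right h1 _) _).trans (le_of_eq ?_)
        ring

/-- the measure `ν` gives mass at most `C / 2 ^ m` to the boxes dual to the vertices -/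
def Fro (φ : ℕ → Fin n → ℝ) (ν : Measure (Fin n → ℝ)) (C : ℝ≥0) : Prop :=
  ∀ (m : ℕ) (x : Fin n → ℝ), 2 ^ m * ν {y | ∀ j, φ (m + 1) j * |y j - x j| ≤ 1} ≤ C

/-- the localized Fourier bound -/
def FB (φ : ℕ → Fin n → ℝ) (ν : Measure (Fin n → ℝ)) (c : ℝ≥0) : Prop :=
  ∀ (μ : Measure (Fin n → ℝ)) [SFinite μ] (R : ℝ≥0) (g : (Fin n → ℝ) → ℂ),
    (∀ S, MeasurableSet S → μ S ≤ R * ν S) → Measurable g → Integrable g μ →
    ∫⁻ p, ‖g p‖ₑ ^ 2 ∂μ ≠ ∞ →
    Loc φ (fun k => ‖∫ p, ch (-k) p * g p ∂μ‖ₑ ^ 2) (c * R * ∫⁻ p, ‖g p‖ₑ ^ 2 ∂μ)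

variable {φ : ℕ → Fin n → ℝ} {θ : ℝ} {ν : Measure (Fin n → ℝ)} {c : ℝ≥0}

theorem Fro.fb (hφ : Wt φ θ) {C : ℝ≥0} (hν : Fro φ ν C) : ∃ c, FB φ ν c := by
  obtain ⟨c, hc⟩ := F.fb n
  refine ⟨c * C, fun μ _ R g hR hg ig h2 m τ hτ => ?_⟩
  set x : Fin n → ℝ := fun j => φ (m + 1) j + τ * (φ (m + 1 + 1) j - φ (m + 1) j) with hx
  have h1 : ∀ j, φ (m + 1) j ≤ x j := fun j =>
    le_add_of_nonneg_right (mul_nonneg hτ (sub_nonneg.2 (hφ.mono _ j)))
  have mT : Measurable fun (p : Fin n → ℝ) j => x j * p j := by fun_prop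
  have t0 : (2 : ℝ≥0∞) ^ m ≠ 0 := by simp
  have t1 : (2 : ℝ≥0∞) ^ m ≠ ∞ := by simp
  have h3 := hc μ (fun p j => x j * p j) g (R * (C / 2 ^ m)) mT hg ig h2
    (ENNReal.mul_ne_top (by simp) (ENNReal.div_ne_top (by simp) t0)) fun y => by
      refine (hR _ (measurableSet_le (measurable_const.sub mT).norm measurable_const)).trans
        (mul_le_mul_right ?_ _)
      rw [ENNReal.le_div_iff_mul_le (.inl t0) (.inl t1), mul_comm]
      refine le_trans (mul_le_mul_right (measure_mono fun p hp j => ?_) _) (hν m fun j => y j / x j)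
      have h4 : |y j - x j * p j| ≤ 1 := (norm_le_pi_norm (y - fun j => x j * p j) j).trans hp
      have h5 : 0 < x j := (hφ.pos m j).trans_le (h1 j)
      refine (mul_le_mul_of_nonneg_right (h1 j) (abs_nonneg _)).trans (le_trans (le_of_eq ?_) h4)
      rw [← abs_of_pos h5, ← abs_mul, abs_of_pos h5, abs_sub_comm (y j)]
      congr 1
      field_simp
  rw [sm, lintegral_smul_measure, smul_eq_mul]
  refine (mul_le_mul_right ((lintegral_map_le _ _).trans (le_trans (le_of_eq ?_) h3)) _).trans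
    (le_of_eq ?_)
  · refine lintegral_congr fun u => ?_
    have e : ∀ p, ch (-seg φ (m + 1) τ u) p = ch (-u) fun j => x j * p j := fun p => by
      simp only [ch, seg, Pi.neg_apply, hx]
      congr 3
      exact Finset.sum_congr rfl fun j _ => by ring
    simp only [e]
  · rw [div_eq_mul_inv, ENNReal.coe_mul]
    calc _ = 2 ^ m * (2 ^ m)⁻¹ * (c * C * R * ∫⁻ p, ‖g p‖ₑ ^ 2 ∂μ) := by ring
      _ = _ := by rw [ENNReal.mul_inv_cancel t0 t1, one_mul]

theorem FB.null [SigmaFinite ν] (h : FB φ ν c) : ∃ k : ℕ → Fin n → ℝ,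
    ∀ g : (Fin n → ℝ) → ℂ, Integrable g ν →
      Tendsto (fun i => ∫ y, ch (k i) y * g y ∂ν) atTop (𝓝 0) := by
  have hd : Dense {G : Lp ℂ 1 ν | MemLp G 2 ν} := by
    refine (Lp.simpleFunc.dense (E := ℂ) (μ := ν) (p := 1) ENNReal.one_ne_top).mono fun G hG => ?_
    have h1 := Lp.simpleFunc.toSimpleFunc_eq_toFun (⟨G, hG⟩ : Lp.simpleFunc ℂ 1 ν)
    refine MemLp.ae_eq h1 ?_
    exact (SimpleFunc.memLp_iff_integrable two_ne_zero ENNReal.ofNat_ne_top).2
      (memLp_one_iff_integrable.1 (Lp.simpleFunc.memLp _))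
  have : Fact ((1 : ℝ≥0∞) ≠ ∞) := ⟨ENNReal.one_ne_top⟩
  obtain ⟨s, hs, cs, ds⟩ := hd.exists_countable_dense_subset
  have bm : ∀ k (g : (Fin n → ℝ) → ℂ), Integrable g ν → Integrable (fun y => ch k y * g y) ν :=
    fun k g hg => hg.bdd_mul (c := 1) (ch_cont _).aestronglyMeasurable
      (.of_forall fun z => (ch_norm _ _).le)
  have h1 : ∀ G ∈ s, ∀ᵐ u ∂volume.restrict (Q n),
      Tendsto (fun m => ∫ y, ch (-seg φ (m + 1) 0 u) y * G y ∂ν) atTop (𝓝 0) := by
    intro G hG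
    have mG := (Lp.stronglyMeasurable G).measurable
    have h2 : ∫⁻ p, ‖G p‖ₑ ^ 2 ∂ν ≠ ∞ := by
      rw [lint_sq]
      exact ENNReal.pow_ne_top (hs hG).2.ne
    have h3 := h ν 1 G (fun S _ => by simp) mG (L1.integrable_coeFn G) h2
    have m0 : Measurable fun k : Fin n → ℝ => ∫ y, ch (-k) y * G y ∂ν :=
      (StronglyMeasurable.integral_prod_right' (f := fun z : (Fin n → ℝ) × (Fin n → ℝ) =>
        ch (-z.1) z.2 * G z.2) (Measurable.stronglyMeasurable
          (Measurable.mul (by unfold ch; fun_prop) (mG.comp measurable_snd)))).measurable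
    have m1 := m0.enorm.pow_const 2
    have m2 := fun m => m1.comp (seg_meas φ (m + 1) 0)
    have h4 : ∫⁻ u in Q n, ∑' m, ‖∫ y, ch (-seg φ (m + 1) 0 u) y * G y ∂ν‖ₑ ^ 2 ≠ ∞ := by
      rw [lintegral_tsum (f := fun m u => ‖∫ y, ch (-seg φ (m + 1) 0 u) y * G y ∂ν‖ₑ ^ 2)
        fun m => (m2 m).aemeasurable]
      refine ne_top_of_le_ne_top ?_ (ENNReal.tsum_le_tsum fun m => seg_le m1 h3 m le_rfl)
      rw [ENNReal.tsum_mul_right, ← ENNReal.ofReal_tsum_of_nonneg (fun _ => by positivity)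
        (by simpa using summable_geometric_two)]
      finiteness
    filter_upwards [ae_lt_top (Measurable.tsum m2) h4] with u hu
    have h5 := ENNReal.tendsto_atTop_zero_of_tsum_ne_top hu.ne
    rw [tendsto_zero_iff_enorm_tendsto_zero]
    refine ENNReal.tendsto_nhds_zero.2 fun ε hε => ?_
    filter_upwards [ENNReal.tendsto_nhds_zero.1 h5 _ (ENNReal.pow_pos hε 2)] with m hm
    exact (ENNReal.pow_le_pow_left_iff two_ne_zero).1 hm
  have : (ae (volume.restrict (Q n))).NeBot := ae_neBot.2 fun h0 => by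
    have := volQ (n := n)
    rw [Measure.restrict_eq_zero.1 h0] at this
    exact zero_ne_one this
  obtain ⟨u, hu⟩ := ((ae_ball_iff cs).2 h1).exists
  refine ⟨fun m => -seg φ (m + 1) 0 u, fun g hg => Metric.tendsto_nhds.2 fun ε hε => ?_⟩
  obtain ⟨G, hG, hd⟩ := ds.exists_dist_lt (hg.toL1 g) (half_pos hε)
  filter_upwards [Metric.tendsto_nhds.1 (hu G hG) _ (half_pos hε)] with m hm
  refine (dist_triangle _ _ _).trans_lt ((add_lt_add_of_le_of_lt ?_ hm).trans_le
    (add_halves ε).le)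
  refine le_trans ?_ hd.le
  rw [dist_eq_norm, ← integral_sub (bm _ _ hg) (bm _ _ (L1.integrable_coeFn G)),
    dist_eq_norm, L1.norm_eq_integral_norm]
  refine (norm_integral_le_integral_norm _).trans (le_of_eq (integral_congr_ae ?_))
  filter_upwards [Lp.coeFn_sub (hg.toL1 g) G, hg.coeFn_toL1] with y h6 h7
  rw [h6, Pi.sub_apply, h7, ← mul_sub, norm_mul, ch_norm, one_mul]

variable {H : Type} [NormedAddCommGroup H] [InnerProductSpace ℂ H] [CompleteSpace H]

theorem exists_frame [SigmaFinite ν] (hF : FB φ ν c)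
    {E : (Fin n → ℝ) → H →L[ℂ] H} (hE0 : E 0 = 1) (hE : ∀ k l, E (k + l) = E k * E l)
    (hEi : ∀ k x y, ⟪E k x, y⟫_ℂ = ⟪x, E (-k) y⟫_ℂ) (hEc : Continuous E)
    (hEn : ∀ k x, ‖E k x‖ = ‖x‖) (x : H) {μ : Measure (Fin n → ℝ)} [IsFiniteMeasure μ]
    (hμ : μ ≪ ν) (hx : ∀ k, ⟪x, E k x⟫_ℂ = ∫ p, ch k p ∂μ) {ε : ℝ} (hε : 0 < ε) :
    ∃ (ξ : H) (M : ℝ≥0), ‖x - ξ‖ ≤ ε ∧ Frame φ M fun k => E k ξ := by
  have mρ := Measure.measurable_rnDeriv μ ν
  have mD : ∀ R : ℕ, MeasurableSet {p | μ.rnDeriv ν p ≤ R} := fun R =>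
    measurableSet_le mρ measurable_const
  obtain ⟨R, hR⟩ : ∃ R : ℕ, μ {p | μ.rnDeriv ν p ≤ R}ᶜ ≤ ENNReal.ofReal ε ^ 2 := by
    have h1 := tendsto_measure_iInter_atTop (μ := μ)
      (s := fun R : ℕ => {p | μ.rnDeriv ν p ≤ R}ᶜ) (fun R => (mD R).compl.nullMeasurableSet)
      (fun R S h => compl_subset_compl.mpr fun p hp =>
        le_trans (b := (R : ℝ≥0∞)) hp (by exact_mod_cast h))
      ⟨0, measure_ne_top _ _⟩
    have h2 : μ (⋂ R : ℕ, {p | μ.rnDeriv ν p ≤ R}ᶜ) = 0 := by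
      refine hμ (measure_mono_null (fun p hp => ?_) (ae_iff.mp (Measure.rnDeriv_lt_top μ ν)))
      intro h
      obtain ⟨n, hn⟩ := ENNReal.exists_nat_gt (ne_of_lt h)
      exact mem_iInter.mp hp n hn.le
    rw [h2] at h1
    exact (ENNReal.tendsto_nhds_zero.mp h1 _ (ENNReal.pow_pos (by simpa using hε) 2)).exists
  set D := {p | μ.rnDeriv ν p ≤ R} with hD
  have hRν : ∀ S, MeasurableSet S → μ.restrict D S ≤ (R : ℝ≥0) * ν S := fun S hS => by
    rw [Measure.restrict_apply hS, ← Measure.setLIntegral_rnDeriv hμ]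
    refine (setLIntegral_mono' (hS.inter (mD R)) fun p hp => hp.2).trans ?_
    rw [setLIntegral_const]
    exact mul_le_mul' (by simp) (measure_mono inter_subset_left)
  set T : ((Fin n → ℝ) →₀ ℂ) →ₗ[ℂ] H := Finsupp.linearCombination ℂ fun k => E k x with hT
  have Ts : ∀ k c, T (Finsupp.single k c) = c • E k x := fun k c => by simp [hT]
  have id1 : ∀ (ν : Measure (Fin n → ℝ)) [IsFiniteMeasure ν] (y : H),
      (∀ k, ⟪y, E k x⟫_ℂ = ∫ p, ch k p ∂ν) → ∀ k d,
      ⟪E k y, T d⟫_ℂ = ∫ p, ch (-k) p * tp d p ∂ν := by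
    intro ν _ y hy k d
    induction d using Finsupp.induction_linear with
    | zero => simp
    | add f g hf hg =>
      simp only [map_add, inner_add_right, hf, hg, Pi.add_apply, mul_add]
      rw [integral_add (int_bdd (ch_bdd _) (tp_bdd _)) (int_bdd (ch_bdd _) (tp_bdd _))]
    | single l c =>
      rw [Ts, inner_smul_right, hEi, ← mul_apply_eq_comp, ← hE, hy,
        ← integral_const_mul]
      simp only [tp_single, ch_add, mul_left_comm]
  have id2 : ∀ d' d, ⟪T d', T d⟫_ℂ = ∫ p, conj (tp d' p) * tp d p ∂μ := by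
    intro d' d
    induction d' using Finsupp.induction_linear with
    | zero => simp
    | add f g hf hg =>
      simp only [map_add, inner_add_left, hf, hg, Pi.add_apply, add_mul]
      rw [integral_add (int_bdd (conj_bdd (tp_bdd _)) (tp_bdd _))
        (int_bdd (conj_bdd (tp_bdd _)) (tp_bdd _))]
    | single l c =>
      rw [Ts, inner_smul_left, id1 μ x hx, ← integral_const_mul]
      simp only [tp_single, ch_neg, map_mul, mul_assoc]
  have id3 : ∀ d, ∫⁻ p, ‖tp d p‖ₑ ^ 2 ∂μ = ‖T d‖ₑ ^ 2 := by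
    intro d
    have h1 := id2 d d
    simp only [inner_self_eq_norm_sq_to_K, conj_mul', ← ofReal_pow, integral_complex_ofReal,
      coe_algebraMap, ofReal_inj] at h1
    have h2 := (int_bdd (μ := μ) (tp_bdd d) (tp_bdd d)).norm
    simp only [← sq, norm_pow] at h2
    rw [← ofReal_norm, ← ENNReal.ofReal_pow (norm_nonneg _), h1,
      ofReal_integral_eq_lintegral_ofReal h2 (Eventually.of_forall fun p => by positivity)]
    simp only [ENNReal.ofReal_pow (norm_nonneg _), ofReal_norm]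
  set K := (LinearMap.range T).topologicalClosure with hK
  have TK : ∀ d, T d ∈ K := fun d => Submodule.le_topologicalClosure _ (LinearMap.mem_range_self _ d)
  have hdense : DenseRange (T.codRestrict K TK) := by
    rw [DenseRange, Subtype.dense_iff, ← range_comp]
    exact subset_rfl
  set f : ((Fin n → ℝ) →₀ ℂ) →ₗ[ℂ] ℂ := Finsupp.linearCombination ℂ fun k => ∫ p in Dᶜ, ch k p ∂μ
    with hf
  have itp : ∀ (ν : Measure (Fin n → ℝ)) [IsFiniteMeasure ν] d, Integrable (tp d) ν := fun ν _ d => by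
    simpa using int_bdd (μ := ν) (tp_bdd d) (b := fun _ => 1) ⟨continuous_const, 1, by simp⟩
  have fe : ∀ d, f d = ∫ p in Dᶜ, tp d p ∂μ := by
    intro d
    induction d using Finsupp.induction_linear with
    | zero => simp
    | add f g hf hg =>
      simp only [map_add, hf, hg, Pi.add_apply]
      rw [integral_add (itp _ _) (itp _ _)]
    | single l c => simp [hf, tp_single, integral_const_mul]
  have fb : ∀ d, ‖f d‖ ≤ ε * ‖T.codRestrict K TK d‖ := by
    intro d
    have h1 := cs (μ := μ.restrict Dᶜ) (a := fun _ => 1) measurable_const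
      (tp_bdd d).1.measurable.enorm (A := ENNReal.ofReal ε) (B := ‖T d‖ₑ) (by simpa using hR)
      ((setLIntegral_le_lintegral _ _).trans (id3 d).le)
    simp only [one_mul] at h1
    have h2 := (enorm_integral_le_lintegral_enorm _).trans h1
    rwa [← fe, ← ofReal_norm, ← ofReal_norm, ← ENNReal.ofReal_mul hε.le,
      ENNReal.ofReal_le_ofReal_iff (by positivity)] at h2
  set ζ : K := (InnerProductSpace.toDual ℂ K).symm (f.extendOfNorm (T.codRestrict K TK)) with hζ
  have hζ1 : ‖(ζ : H)‖ ≤ ε := by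
    rw [← Submodule.coe_norm, hζ, LinearIsometryEquiv.norm_map]
    exact LinearMap.opNorm_extendOfNorm_le hdense hε.le fb
  have hζ2 : ∀ d, ⟪(ζ : H), T d⟫_ℂ = f d := fun d => by
    rw [← LinearMap.extendOfNorm_eq hdense ⟨ε, fb⟩ d, ← InnerProductSpace.toDual_symm_apply]
    rfl
  have hξ : ∀ k, ⟪x - ζ, E k x⟫_ℂ = ∫ p in D, ch k p ∂μ := fun k => by
    have h1 := hζ2 (Finsupp.single k 1)
    have h2 := itp μ (Finsupp.single k 1)
    rw [Ts, one_smul, fe] at h1
    simp only [funext (tp_single k 1), one_mul] at h1 h2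
    rw [inner_sub_left, hx, h1, ← integral_add_compl (mD R) h2, add_sub_cancel_right]
  have xK : x - ζ ∈ K := K.sub_mem (by simpa [Ts, hE0] using TK (Finsupp.single 0 1)) ζ.2
  have EK : ∀ k, ∀ y ∈ K, E k y ∈ K := by
    intro k y hy
    refine map_mem_closure (E k).continuous hy ?_
    rintro _ ⟨d, rfl⟩
    induction d using Finsupp.induction_linear with
    | zero => simp
    | add f g hf hg =>
      rw [map_add, map_add]
      exact Submodule.add_mem _ hf hg
    | single l c =>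
      exact ⟨Finsupp.single (k + l) c, by rw [Ts, Ts, map_smul, hE, mul_apply_eq_comp]⟩
  set c' : ℝ≥0 := c * R with hc
  have cv : Continuous fun k => E k (x - ζ) := by fun_prop
  refine ⟨x - ζ, ‖x - ζ‖₊ + c' + 1, by simpa using hζ1, cv, fun k => ?_, fun h m τ hτ => ?_⟩
  · rw [← ofReal_norm, hEn, ofReal_norm, enorm_eq_nnnorm, ENNReal.coe_le_coe, add_assoc]
    exact le_self_add
  have hb : ∀ y ∈ K, ∫⁻ k, ‖⟪y, E k (x - ζ)⟫_ℂ‖ₑ ^ 2 ∂sm φ m τ ≤ c' * ‖y‖ₑ ^ 2 := by
    intro y hy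
    obtain ⟨u, hu, hl⟩ := mem_closure_iff_seq_limit.mp hy
    have h1 : ∀ n, ∫⁻ k, ‖⟪u n, E k (x - ζ)⟫_ℂ‖ₑ ^ 2 ∂sm φ m τ ≤ c' * ‖u n‖ₑ ^ 2 := by
      intro n
      obtain ⟨d, hd⟩ := hu n
      have h0 : ∫⁻ p in D, ‖tp d p‖ₑ ^ 2 ∂μ ≤ ‖T d‖ₑ ^ 2 :=
        (setLIntegral_le_lintegral _ _).trans (id3 d).le
      have h2 := (hF (μ.restrict D) R (tp d) hRν (tp_bdd d).1.measurable (itp _ d)
        (ne_top_of_le_ne_top (by finiteness) h0) m τ hτ).trans (mul_le_mul_right h0 _)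
      rw [← hd]
      refine le_trans (le_of_eq ?_) (h2.trans (le_of_eq (by simp [hc])))
      congr 1
      funext k
      rw [← ofReal_norm, norm_inner_symm, ofReal_norm, id1 (μ.restrict D) _ hξ]
    have h3 : Tendsto (fun n => (c' : ℝ≥0∞) * ‖u n‖ₑ ^ 2) atTop (𝓝 (c' * ‖y‖ₑ ^ 2)) :=
      ENNReal.Tendsto.const_mul (ENNReal.Tendsto.pow hl.enorm) (Or.inr ENNReal.coe_ne_top)
    have h4 : ∀ k, Tendsto (fun n => ‖⟪u n, E k (x - ζ)⟫_ℂ‖ₑ ^ 2) atTop
        (𝓝 (‖⟪y, E k (x - ζ)⟫_ℂ‖ₑ ^ 2)) := fun k =>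
      ENNReal.Tendsto.pow (hl.inner tendsto_const_nhds).enorm
    simp only [← fun k => (h4 k).liminf_eq, ← h3.liminf_eq]
    exact (lintegral_liminf_le fun n =>
      (continuous_const.inner cv).measurable.enorm.pow_const 2).trans
      (liminf_le_liminf (Eventually.of_forall h1))
  have e : ∀ k, ⟪h, E k (x - ζ)⟫_ℂ = ⟪K.starProjection h, E k (x - ζ)⟫_ℂ := fun k => by
    rw [← sub_eq_zero, ← inner_sub_left]
    exact K.starProjection_inner_eq_zero _ _ (EK k _ xK)
  simp only [e]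
  refine (hb _ (K.starProjection_apply_mem h)).trans ?_
  rw [mul_pow]
  gcongr
  · rw [← ENNReal.coe_pow, ENNReal.coe_le_coe]
    exact le_trans (le_trans le_add_self le_self_add) (le_self_pow₀ le_add_self two_ne_zero)
  · exact enorm_le_iff_norm_le.mpr (K.norm_starProjection_apply_le h)

end Pool.Agent.Work.MP_707689_an.N.G.F
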