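import Pool.Agent.Work.MP_707689_an.F.Defs

/-! A finite measure that vanishes on the null sets is equivalent to a measure with small mass on
all boxes. -/

open MeasureTheory Set Filter Topology
open scoped ENNReal NNReal

namespace Pool.Agent.Work.MP_707689_an.N.G.F

variable {n : ℕ} {Φ : Fin n → ℕ → ℝ} {ρ ρ' : Measure (Fin n → ℝ)}

/-- measures with mass at most `C / k` on the boxes of order `k` -/
def Fm (Φ : Fin n → ℕ → ℝ) (ρ : Measure (Fin n → ℝ)) : Prop :=
  ∃ C : ℝ≥0, ∀ k : ℕ, 1 ≤ k → ∀ x, k * ρ (box Φ k x) ≤ C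

theorem Fm.add (h : Fm Φ ρ) (h' : Fm Φ ρ') : Fm Φ (ρ + ρ') := by
  obtain ⟨C, h⟩ := h
  obtain ⟨D, h'⟩ := h'
  refine ⟨C + D, fun k hk x => ?_⟩
  rw [Measure.add_apply, mul_add, ENNReal.coe_add]
  exact add_le_add (h k hk x) (h' k hk x)

theorem Fm.null (h : Fm Φ ρ) {S : Set (Fin n → ℝ)} (hS : Null Φ S) : ρ S = 0 := by
  obtain ⟨C, h⟩ := h
  refine le_antisymm (ENNReal.le_of_forall_pos_le_add fun δ hδ _ => ?_) zero_le
  obtain ⟨η, hη, hη'⟩ := ENNReal.exists_nnreal_pos_mul_lt (a := (C : ℝ≥0∞)) (b := δ)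
    ENNReal.coe_ne_top (by exact_mod_cast hδ.ne')
  obtain ⟨ι, _, k, x, h1, h2, h3⟩ := hS η (by exact_mod_cast hη)
  rw [zero_add]
  refine ((measure_mono h2).trans (measure_iUnion_le _)).trans (le_trans ?_
    ((mul_le_mul_left h3 _).trans hη'.le))
  rw [← ENNReal.tsum_mul_right]
  refine ENNReal.tsum_le_tsum fun i => le_trans (le_of_eq ?_) (mul_le_mul_right (h _ (h1 i) (x i)) _)
  rw [← mul_assoc, ENNReal.inv_mul_cancel (by simpa using Nat.one_le_iff_ne_zero.1 (h1 i))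
    (by simp), one_mul]

theorem frost (hm : ∀ j, Monotone (Φ j)) (hp : ∀ j, 0 < Φ j 1)
    (hd : ∀ j k, 1 ≤ k → Φ j (2 * k) ≤ 2 * Φ j k) (μ : Measure (Fin n → ℝ)) [IsFiniteMeasure μ]
    (h0 : ∀ S, MeasurableSet S → Null Φ S → μ S = 0) : ∃ ρ, Fm Φ ρ ∧ μ ≪ ρ ∧ ρ ≪ μ := by
  have hp' : ∀ j k, 0 < Φ j (k + 1) := fun j k => (hp j).trans_le (hm j (Nat.le_add_left 1 k))
  set B : ℝ → ℕ → (Fin n → ℝ) → Set (Fin n → ℝ) := fun c k y =>
    {p | ∀ j, Φ j (k + 1) * |p j - y j| ≤ c} with hB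
  have m0 : ∀ c k, MeasurableSet {z : (Fin n → ℝ) × (Fin n → ℝ) | z.2 ∈ B c k z.1} := fun c k => by
    change MeasurableSet {z : (Fin n → ℝ) × (Fin n → ℝ) | ∀ j, Φ j (k + 1) * |z.2 j - z.1 j| ≤ c}
    rw [ofPred_forall]
    refine MeasurableSet.iInter fun j => measurableSet_le (Continuous.measurable ?_)
      measurable_const
    exact continuous_const.mul (Continuous.abs (by fun_prop))
  have m1 : ∀ c k y, MeasurableSet (B c k y) := fun c k y => measurable_prodMk_left (m0 c k)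
  set M : (Fin n → ℝ) → ℝ≥0∞ := fun y => ⨆ k : ℕ, ((k + 1 : ℕ) : ℝ≥0∞) * μ (B 2 k y) with hM
  have mM : Measurable M :=
    Measurable.iSup fun k => (measurable_measure_prodMk_left (m0 2 k)).const_mul _
  refine ⟨μ.withDensity fun y => (M y)⁻¹, ⟨1, fun k hk x => ?_⟩,
    withDensity_absolutelyContinuous' mM.inv.aemeasurable ?_,
    withDensity_absolutelyContinuous _ _⟩
  · obtain ⟨k, rfl⟩ := Nat.exists_eq_add_of_le' hk
    change _ * μ.withDensity _ (B 1 k x) ≤ _
    rw [withDensity_apply _ (m1 1 k x)]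
    refine (mul_le_mul_right (setLIntegral_mono' (m1 1 k x)
      (g := fun _ => (((k + 1 : ℕ) : ℝ≥0∞) * μ (B 1 k x))⁻¹) fun y hy =>
        ENNReal.inv_le_inv.2 (le_iSup_of_le k (mul_le_mul_right (measure_mono fun p hp j => ?_) _)))
      _).trans ?_
    · have h1 := mul_le_mul_of_nonneg_left (abs_sub_le (p j) (x j) (y j)) (hp' j k).le
      have h2 := hy j
      rw [abs_sub_comm] at h2
      linarith [hp j]
    · rw [setLIntegral_const, mul_left_comm, ENNReal.coe_one]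
      exact ENNReal.inv_mul_le_one _
  simp only [ne_eq, ENNReal.inv_eq_zero, ae_iff, not_not]
  refine h0 _ (mM (measurableSet_singleton ∞)) fun ε hε => ?_
  obtain ⟨η, hη, hη'⟩ := ENNReal.exists_nnreal_pos_mul_lt (a := 13 ^ n * μ univ) (b := ε)
    (by finiteness) hε.ne'
  have h1 : ∀ y ∈ {y | M y = ∞}, ∃ k : ℕ, ((k + 1 : ℕ) : ℝ≥0∞)⁻¹ ≤ η * μ (B 2 k y) := by
    intro y hy
    obtain ⟨k, hk⟩ := lt_iSup_iff.1 (lt_of_lt_of_eq (ENNReal.inv_lt_top.2
      (show (0 : ℝ≥0∞) < η by exact_mod_cast hη)) (Eq.symm hy))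
    refine ⟨k, ?_⟩
    rw [ENNReal.inv_le_iff_le_mul (by simp) (by simp), mul_left_comm,
      ← ENNReal.inv_le_iff_le_mul (by simpa using fun _ => hη.ne') (by simp)]
    exact hk.le
  choose! κ hκ using h1
  obtain ⟨u, hu, hd1, hc⟩ := Vitali.exists_disjoint_subfamily_covering_enlargement
    (fun a => B 2 (κ a) a) {y | M y = ∞} (fun a => 1 / ((κ a : ℝ) + 1)) 2 one_lt_two
    (fun a _ => by positivity) 1
    (fun a _ => (div_le_one (by positivity)).2 (le_add_of_nonneg_left (Nat.cast_nonneg _)))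
    fun a _ => ⟨a, fun j => by simp⟩
  have hd2 : Pairwise (Function.onFun Disjoint fun b : u => B 2 (κ b) b) :=
    fun a b hab => hd1 a.2 b.2 fun e => hab (Subtype.ext e)
  have cu : Countable u := by
    rw [← countable_univ_iff]
    refine (Measure.countable_meas_pos_of_disjoint_iUnion (μ := μ) (fun b : u => m1 2 _ _)
      hd2).mono fun b _ => ?_
    refine pos_iff_ne_zero.2 fun e : μ (B 2 (κ b) b) = 0 => ?_
    simpa [e] using hκ b (hu b.2)
  refine ⟨u × (Fin n → Fin 13), inferInstance, fun z => κ z.1 + 1,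
    fun z j => (z.1 : Fin n → ℝ) j + (((z.2 j : ℕ) : ℝ) - 6) / Φ j (κ z.1 + 1),
    fun z => Nat.le_add_left 1 _, fun a ha => ?_, ?_⟩
  · obtain ⟨b, hb, ⟨p, h2, h3⟩, h4⟩ := hc a ha
    have h5 : κ b + 1 ≤ 2 * (κ a + 1) := by
      rw [mul_one_div, div_le_div_iff₀ (by positivity) (by positivity), one_mul] at h4
      exact_mod_cast h4
    have h6 : ∀ j, |Φ j (κ b + 1) * (a j - b j)| ≤ 6 := fun j => by
      have h7 := (hm j h5).trans (hd j _ (Nat.le_add_left 1 _))
      have h8 := mul_le_mul_of_nonneg_left (abs_sub_le (a j) (p j) (b j)) (hp' j (κ b)).le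
      have h9 := mul_le_mul_of_nonneg_right h7 (abs_nonneg (a j - p j))
      have h10 := h2 j
      rw [abs_sub_comm] at h10
      rw [abs_mul, abs_of_pos (hp' j _)]
      linarith [h3 j]
    refine mem_iUnion.2 ⟨(⟨b, hb⟩, fun j => ⟨⌊Φ j (κ b + 1) * (a j - b j) + 6⌋₊, ?_⟩), fun j => ?_⟩
    · rw [Nat.floor_lt (by linarith [(abs_le.1 (h6 j)).1])]
      push_cast
      linarith [(abs_le.1 (h6 j)).2]
    · have h7 := Nat.floor_le (a := Φ j (κ b + 1) * (a j - b j) + 6)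
        (by linarith [(abs_le.1 (h6 j)).1])
      have h8 := Nat.lt_floor_add_one (Φ j (κ b + 1) * (a j - b j) + 6)
      have h9 := hp' j (κ b)
      simp only
      rw [← abs_of_pos h9, ← abs_mul, abs_of_pos h9, mul_sub, mul_add, mul_div_cancel₀ _ h9.ne',
        abs_le]
      constructor <;> linarith
  · rw [ENNReal.tsum_prod']
    simp only [tsum_fintype, Finset.sum_const, Finset.card_univ, Fintype.card_fun,
      Fintype.card_fin, nsmul_eq_mul]
    refine (ENNReal.tsum_le_tsum fun b : u => mul_le_mul_right (hκ b (hu b.2)) _).trans ?_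
    rw [ENNReal.tsum_mul_left, ENNReal.tsum_mul_left]
    refine le_trans ?_ hη'.le
    rw [mul_left_comm]
    push_cast
    gcongr
    exact (tsum_meas_le_meas_iUnion_of_disjoint μ (fun b : u => m1 2 _ _) hd2).trans
      (measure_mono (subset_univ _))

end Pool.Agent.Work.MP_707689_an.N.G.F
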