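import Pool.Agent.Work.MP_707689_an.F.Main

/-! Gluing the wave operators of the reference measures. -/

open MeasureTheory Set Filter Topology Complex Metric
open scoped ENNReal NNReal InnerProductSpace ComplexConjugate Real

namespace Pool.Agent.Work.MP_707689_an.N.G.F

variable {H : Type} [NormedAddCommGroup H] [InnerProductSpace ℂ H] [CompleteSpace H] {n : ℕ}
  {A B : Fin n → H →L[ℂ] H} {E E' : Set (Fin n → ℝ) → H →L[ℂ] H}
  {μ μ' : H → Measure (Fin n → ℝ)} {θ : ℝ} {ρ ρ' : Measure (Fin n → ℝ)} {W W' : H →L[ℂ] H}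
  {Φ : Fin n → ℕ → ℝ}

omit [CompleteSpace H] in
theorem acS_mono (h : ρ ≪ ρ') {x : H} (hx : x ∈ acS ρ E) : x ∈ acS ρ' E :=
  fun S hS h0 => hx S hS (h h0)

theorem mem_acS (h : PX E μ) {x : H} (hx : μ x ≪ ρ) : x ∈ acS ρ E := fun S hS h0 => by
  have h1 := h.app x S hS
  rw [hx h0] at h1
  simpa using h1.symm

theorem Wv.cons (h : Sp A E μ) (h' : Sp B E' μ') (w : Wv ρ A B E E' μ μ' W)
    (w' : Wv ρ' A B E E' μ μ' W') (hρ : ρ ≪ ρ') {x : H} (hx : x ∈ acS ρ E) : W x = W' x := by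
  obtain ⟨k, hk⟩ := w'.seq
  exact tendsto_nhds_unique (w.lim _ _ _ (fun i => h.ch (k i)) (fun i => h'.ch (k i))
    (fun _ _ => ch_norm _ _) (fun z hz => hk z (acS_mono hρ hz)) x hx)
    (w'.lim _ _ _ (fun i => h.ch (k i)) (fun i => h'.ch (k i)) (fun _ _ => ch_norm _ _) hk x
      (acS_mono hρ hx))

theorem px_compl (h : PX E μ) {S : Set (Fin n → ℝ)} (hS : MeasurableSet S) (x : H) :
    E S x + E Sᶜ x = x :=
  DFunLike.congr_fun ((((h.ind hS).add (h.ind hS.compl)).congr fun p => by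
    by_cases hp : p ∈ S <;> simp [hp]).ext h.one) x

theorem Wv.proj (h : Sp A E μ) (h' : Sp B E' μ') (w : Wv ρ A B E E' μ μ' W) {x : H}
    (hx : x ∈ acS ρ E) {S : Set (Fin n → ℝ)} (hS : MeasurableSet S) : W (E S x) = E' S (W x) := by
  have z : ∀ S T, MeasurableSet S → MeasurableSet T → S ∩ T = ∅ → E' S (W (E T x)) = 0 := by
    intro S T hS hT e
    have h1 := h'.pv.app (W (E T x)) S hS
    rw [w.sc _ (px_map h.pv (h.pv.ind hT) hx), h.pv.app _ S hS, ← mul_apply_eq_comp,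
      ← h.pv.inter S T hS hT, e, ← h.pv.app x ∅ MeasurableSet.empty, measure_empty] at h1
    simpa using h1.symm
  have e1 := px_compl h'.pv hS (W (E S x))
  have e2 := congrArg (fun y => E' S (W y)) (px_compl h.pv hS x)
  simp only [map_add] at e2
  rw [z _ _ hS.compl hS (by simp), add_zero] at e1
  rw [z _ _ hS hS.compl (by simp), add_zero] at e2
  exact e1.symm.trans e2

/-- the continuous subspace -/
def cS (Φ : Fin n → ℕ → ℝ) (E : Set (Fin n → ℝ) → H →L[ℂ] H) : Submodule ℂ H where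
  carrier := {x | Cont Φ E x}
  zero_mem' := fun S _ _ => map_zero _
  add_mem' := fun {a b} ha hb S h1 h2 => by rw [map_add, ha S h1 h2, hb S h1 h2, add_zero]
  smul_mem' := fun c a ha S h1 h2 => by rw [map_smul, ha S h1 h2, smul_zero]

omit [CompleteSpace H] in
theorem cS_closed : IsClosed (cS Φ E : Set H) := by
  have : (cS Φ E : Set H) = ⋂ S, ⋂ _ : MeasurableSet S, ⋂ _ : Null Φ S, {x | E S x = 0} := by
    ext x
    simp only [mem_iInter]
    rfl
  rw [this]
  exact isClosed_iInter fun S => isClosed_iInter fun _ => isClosed_iInter fun _ =>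
    isClosed_eq (E S).continuous continuous_const

instance : CompleteSpace (cS Φ E) := cS_closed.completeSpace_coe

theorem null_L1 {ι : Type} {l : Filter ι} {ν : Measure (Fin n → ℝ)}
    {f : ι → (Fin n → ℝ) → ℂ} (mf : ∀ i, Measurable (f i)) (h1 : ∀ i y, ‖f i y‖ = 1)
    (h : ∀ s, MeasurableSet s → Tendsto (fun i => ∫ y in s, f i y ∂ν) l (𝓝 0))
    {g : (Fin n → ℝ) → ℂ} (hg : Integrable g ν) :
    Tendsto (fun i => ∫ y, f i y * g y ∂ν) l (𝓝 0) := by
  have bm : ∀ i (g : (Fin n → ℝ) → ℂ), Integrable g ν → Integrable (fun y => f i y * g y) ν :=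
    fun i g hg => hg.bdd_mul (c := 1) (mf i).aestronglyMeasurable
      (.of_forall fun z => (h1 _ _).le)
  refine Integrable.induction (fun g => Tendsto (fun i => ∫ y, f i y * g y ∂ν) l (𝓝 0))
    (fun c s hs _ => ?_) (fun g g' _ i1 i2 t1 t2 => ?_)
    (isClosed_of_closure_subset fun G hG => Metric.tendsto_nhds.2 fun ε hε => ?_)
    (fun g g' e _ t => t.congr fun i => integral_congr_ae (e.mono fun y hy => by
      simp only [hy])) hg
  · refine (zero_mul c ▸ (h s hs).mul_const c).congr fun i => ?_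
    rw [← integral_mul_const, ← integral_indicator hs]
    refine integral_congr_ae (.of_forall fun y => ?_)
    by_cases hy : y ∈ s <;> simp [hy]
  · refine (add_zero (0 : ℂ) ▸ t1.add t2).congr fun i => ?_
    simp only [Pi.add_apply, mul_add]
    rw [integral_add (bm i _ i1) (bm i _ i2)]
  · obtain ⟨G', hG', hd⟩ := Metric.mem_closure_iff.1 hG _ (half_pos hε)
    filter_upwards [Metric.tendsto_nhds.1 hG' _ (half_pos hε)] with m hm
    refine (dist_triangle _ _ _).trans_lt ((add_lt_add_of_le_of_lt ?_ hm).trans_le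
      (add_halves ε).le)
    refine le_trans ?_ hd.le
    rw [dist_eq_norm, ← integral_sub (bm _ _ (L1.integrable_coeFn G))
      (bm _ _ (L1.integrable_coeFn G')), dist_eq_norm, L1.norm_eq_integral_norm]
    refine (norm_integral_le_integral_norm _).trans (le_of_eq (integral_congr_ae ?_))
    filter_upwards [Lp.coeFn_sub G G'] with y h6
    rw [h6, Pi.sub_apply, ← mul_sub, norm_mul, h1, one_mul]

theorem wave2 (hθ : θ < 2) (hm : ∀ j, Monotone (Φ j))
    (hp : ∀ j, 0 < Φ j 1) (hd : ∀ j k, 1 ≤ k → Φ j (2 * k) ≤ θ * Φ j k)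
    (hK : ∀ j, Summable fun k : ℕ => sv (A j - B j) k * Φ j (k + 1) / ((k : ℝ) + 1))
    (hE : IsSpec A E) (hE' : IsSpec B E') : ∃ W : H →L[ℂ] H,
      (∀ (ι : Type) (l : Filter ι) [l.IsCountablyGenerated] (f : ι → (Fin n → ℝ) → ℂ)
        (S T : ι → H →L[ℂ] H), (∀ i, Measurable (f i)) → (∀ i y, ‖f i y‖ = 1) →
        (∀ i, IsInt E (f i) (S i)) → (∀ i, IsInt E' (f i) (T i)) →
        ∀ x, Cont Φ E x → (∀ y, Tendsto (fun i => ⟪y, S i x⟫_ℂ) l (𝓝 0)) →
          Tendsto (fun i => star (T i) (S i x)) l (𝓝 (W x))) ∧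
      (∀ x, Cont Φ E x → ‖W x‖ = ‖x‖ ∧ (∀ j, W (A j x) = B j (W x)) ∧
        ∀ S, MeasurableSet S → W (E S x) = E' S (W x)) ∧
      W '' {x | Cont Φ E x} = {y | Cont Φ E' y} := by
  obtain ⟨μ, h, m⟩ := hE.sp
  obtain ⟨μ', h', m'⟩ := hE'.sp
  have fr : ∀ {E : Set (Fin n → ℝ) → H →L[ℂ] H} {μ : H → Measure (Fin n → ℝ)}, PX E μ →
      ∀ x, Cont Φ E x → ∃ ρ, Fm Φ ρ ∧ μ x ≪ ρ ∧ ρ ≪ μ x := fun {E μ} h x hx => by
    have := h.fin x
    refine frost hm hp (fun j k hk => (hd j k hk).trans (mul_le_mul_of_nonneg_right hθ.le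
      ((hp j).le.trans (hm j hk)))) (μ x) fun S hS h0 => ?_
    simp [h.app x S hS, hx S hS h0]
  have ct : ∀ {E : Set (Fin n → ℝ) → H →L[ℂ] H} {ρ}, Fm Φ ρ → ∀ x ∈ acS ρ E, Cont Φ E x :=
    fun hρ x hx S hS h0 => hx S hS (hρ.null h0)
  choose! V hV using fun ρ (hρ : Fm Φ ρ) => wave1 hθ hm hp hd hρ hK h h'
  choose! r r1 r2 r3 using fr h.pv
  have r4 := fun x hx => mem_acS h.pv (r2 x hx)
  have a1 : ∀ a b : Measure (Fin n → ℝ), a ≪ a + b := fun a b =>
    Measure.absolutelyContinuous_of_le (Measure.le_add_right le_rfl)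
  have a2 : ∀ a b : Measure (Fin n → ℝ), b ≪ a + b := fun a b =>
    Measure.absolutelyContinuous_of_le (Measure.le_add_left le_rfl)
  have key : ∀ ρ, Fm Φ ρ → ∀ x ∈ acS ρ E, V (r x) x = V ρ x := fun ρ hρ x hx => by
    have cx := ct hρ x hx
    have w := hV _ (hρ.add (r1 x cx))
    exact ((hV _ (r1 x cx)).cons h h' w (a2 _ _) (r4 x cx)).trans
      ((hV _ hρ).cons h h' w (a1 _ _) hx).symm
  have pm : ∀ x, Cont Φ E ((cS Φ E).starProjection x) := (cS Φ E).starProjection_apply_mem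
  let L : H →ₗ[ℂ] H :=
    { toFun := fun x => V (r ((cS Φ E).starProjection x)) ((cS Φ E).starProjection x)
      map_add' := fun x y => by
        have hρ := (r1 _ (pm x)).add (r1 _ (pm y))
        have hx := acS_mono (a1 _ (r ((cS Φ E).starProjection y))) (r4 _ (pm x))
        have hy := acS_mono (a2 (r ((cS Φ E).starProjection x)) _) (r4 _ (pm y))
        rw [map_add, key _ hρ _ (add_mem hx hy), key _ hρ _ hx, key _ hρ _ hy, map_add]
      map_smul' := fun c x => by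
        rw [map_smul, key _ (r1 _ (pm x)) _ (Submodule.smul_mem _ c (r4 _ (pm x))), map_smul]
        rfl }
  let W := L.mkContinuous 1 fun x => by
    rw [one_mul]
    exact ((hV _ (r1 _ (pm x))).iso _ (r4 _ (pm x))).1.trans_le
      ((cS Φ E).norm_starProjection_apply_le x)
  have eW : ∀ ρ, Fm Φ ρ → ∀ x ∈ acS ρ E, W x = V ρ x := fun ρ hρ x hx => by
    change V (r ((cS Φ E).starProjection x)) ((cS Φ E).starProjection x) = _
    rw [Submodule.starProjection_eq_self_iff.2 (ct hρ x hx), key ρ hρ x hx]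
  refine ⟨W, fun ι l _ f S T c1 c2 iS iT x hx c3 => ?_, fun x hx => ?_,
    Subset.antisymm ?_ fun y hy => ?_⟩
  · have jS : ∀ i, IC μ (f i) (S i) := fun i =>
      ⟨c1 _, fun z => (iS _ z _ (m z)).1, fun z => (iS _ z _ (m z)).2⟩
    rw [eW _ (r1 x hx) x (r4 x hx)]
    refine tendsto_iff_seq_tendsto.2 fun u hu => (hV _ (r1 x hx)).lim (fun i => f (u i))
      (fun i => S (u i)) (fun i => T (u i)) (fun i => jS _)
      (fun i => ⟨c1 _, fun z => (iT _ z _ (m' z)).1, fun z => (iT _ z _ (m' z)).2⟩)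
      (fun i => c2 _) (fun z hz => ?_) x (r4 x hx)
    have i1 := h.pv.fin z
    have i2 := h.pv.fin x
    have i3 : SigmaFinite (μ x) := IsFiniteMeasure.toSigmaFinite _
    have i4 : (μ z).HaveLebesgueDecomposition (μ x) :=
      Measure.haveLebesgueDecomposition_of_sigmaFinite _ _
    refine ((null_L1 c1 c2 (fun s hs => (c3 (E s x)).congr fun i => ?_)
      (g := fun y => (((μ z).rnDeriv (μ x) y).toReal : ℂ))
      (Measure.integrable_toReal_rnDeriv.ofReal)).comp hu).congr fun i => ?_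
    · rw [sa_inner (h.pv.sa s hs), ← mul_apply_eq_comp, (h.pv.mul (h.pv.ind hs) (jS i)).eq,
        ← integral_indicator hs]
      refine integral_congr_ae (.of_forall fun y => ?_)
      by_cases hy : y ∈ s <;> simp [hy]
    · rw [← integral_rnDeriv_smul ((px_ac h.pv hz).trans (r3 x hx))]
      simp only [Function.comp, real_smul, mul_comm]
  · have w := hV _ (r1 x hx)
    have e := eW _ (r1 x hx)
    rw [e x (r4 x hx)]
    refine ⟨(w.iso x (r4 x hx)).1, fun j => ?_, fun S hS => ?_⟩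
    · rw [e _ (px_map h.pv (h.int j) (r4 x hx)), (w.iso x (r4 x hx)).2]
    · rw [e _ (px_map h.pv (h.pv.ind hS) (r4 x hx)), w.proj h h' (r4 x hx) hS]
  · rintro _ ⟨x, hx, rfl⟩
    rw [mem_ofPred_eq, eW _ (r1 x hx) x (r4 x hx)]
    exact ct (r1 x hx) _ (mem_acS h'.pv (((hV _ (r1 x hx)).sc x (r4 x hx)).symm ▸ r2 x hx))
  · obtain ⟨ρ, h1, h2, -⟩ := fr h'.pv y hy
    obtain ⟨x, hx, e⟩ := (hV _ h1).onto y (mem_acS h'.pv h2)
    exact ⟨x, ct h1 x hx, (eW _ h1 x hx).trans e⟩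

end Pool.Agent.Work.MP_707689_an.N.G.F
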