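import Pool.Agent.Work.MP_707689_an.F.Defs

/-! Check: for power weights the null sets are the null sets of the Hausdorff measure. -/

open MeasureTheory Set Filter Topology Metric
open scoped ENNReal NNReal MeasureTheory

namespace Pool.Agent.Work.MP_707689_an.N.G.F

variable {n : ℕ} {s : ℝ}

theorem haus_of_null (hs : 0 < s) {S : Set (Fin n → ℝ)}
    (h : Null (fun _ k => (k : ℝ) ^ (1 / s)) S) : μH[s] S = 0 := by
  choose ι c k x h1 h2 h3 using fun m : ℕ => h ((m : ℝ≥0∞) + 1)⁻¹ (by simp)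
  have t0 : Tendsto (fun m : ℕ => ((m : ℝ≥0∞) + 1)⁻¹) atTop (𝓝 0) := by
    simpa [Function.comp_def] using
      ENNReal.tendsto_inv_nat_nhds_zero.comp (tendsto_add_atTop_nat 1)
  have d : ∀ (k : ℕ) (x : Fin n → ℝ), 1 ≤ k →
      ediam (box (fun _ k => (k : ℝ) ^ (1 / s)) k x) ≤ 2 * ((k : ℝ≥0∞)⁻¹) ^ (1 / s) := by
    intro k x hk
    have k0 : (0 : ℝ) < k := by exact_mod_cast hk
    have k1 : 0 < (k : ℝ) ^ (1 / s) := by positivity
    have e : 2 * ((k : ℝ≥0∞)⁻¹) ^ (1 / s) = ENNReal.ofReal (2 * (1 / (k : ℝ) ^ (1 / s))) := by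
      rw [ENNReal.ofReal_mul zero_le_two, one_div ((k : ℝ) ^ _), ENNReal.ofReal_inv_of_pos k1,
        ← ENNReal.ofReal_rpow_of_pos k0, ENNReal.inv_rpow]
      simp
    rw [e]
    refine ediam_le fun y hy z hz => ?_
    rw [edist_dist]
    refine ENNReal.ofReal_le_ofReal ((dist_pi_le_iff (by positivity)).2 fun j => ?_)
    have a1 : |y j - x j| ≤ 1 / (k : ℝ) ^ (1 / s) := (le_div_iff₀' k1).2 (hy j)
    have a2 : |z j - x j| ≤ 1 / (k : ℝ) ^ (1 / s) := (le_div_iff₀' k1).2 (hz j)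
    rw [Real.dist_eq, abs_le] at *
    constructor <;> linarith [a1.1, a1.2, a2.1, a2.2]
  refine le_antisymm ((Measure.hausdorffMeasure_le_liminf_tsum s S (l := atTop)
    (fun m : ℕ => 2 * (((m : ℝ≥0∞) + 1)⁻¹) ^ (1 / s)) ?_
    (fun m i => box (fun _ k => (k : ℝ) ^ (1 / s)) (k m i) (x m i))
    (.of_forall fun m i => (d _ _ (h1 m i)).trans ?_) (.of_forall h2)).trans ?_) zero_le
  · simpa [hs] using ENNReal.Tendsto.const_mul (a := 2)
      (((ENNReal.continuous_rpow_const (y := 1 / s)).tendsto 0).comp t0) (Or.inr (by simp))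
  · exact mul_le_mul_right (ENNReal.rpow_le_rpow ((ENNReal.le_tsum i).trans (h3 m))
      (by positivity)) _
  · have t1 := ENNReal.Tendsto.const_mul (a := 2 ^ s) t0 (Or.inr (by simp))
    rw [mul_zero] at t1
    rw [← t1.liminf_eq]
    refine liminf_le_liminf (.of_forall fun m => le_trans ?_ (mul_le_mul_right (h3 m) _))
    rw [← ENNReal.tsum_mul_left]
    refine ENNReal.tsum_le_tsum fun i => (ENNReal.rpow_le_rpow (d _ _ (h1 m i)) hs.le).trans
      (le_of_eq ?_)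
    rw [ENNReal.mul_rpow_of_nonneg _ _ hs.le, ← ENNReal.rpow_mul, one_div_mul_cancel hs.ne',
      ENNReal.rpow_one]

theorem null_of_haus (hs : 0 < s) {S : Set (Fin n → ℝ)} (h : μH[s] S = 0) :
    Null (fun _ k => (k : ℝ) ^ (1 / s)) S := by
  intro ε hε
  have h4 := ENNReal.half_pos (ENNReal.half_pos hε.ne').ne'
  rw [Measure.hausdorffMeasure_apply] at h
  have h1 := (le_iSup₂_of_le (f := fun (r : ℝ≥0∞) (_ : 0 < r) => ⨅ (t : ℕ → Set (Fin n → ℝ))
    (_ : S ⊆ ⋃ n, t n) (_ : ∀ n, ediam (t n) ≤ r), ∑' n, ⨆ _ : (t n).Nonempty, ediam (t n) ^ s)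
    (2⁻¹ ^ (1 / s)) (by simp [ENNReal.rpow_pos]) le_rfl).trans_lt (h.trans_lt h4)
  simp only [iInf_lt_iff] at h1
  obtain ⟨t, h2, h3, h5⟩ := h1
  obtain ⟨η, hη, hη'⟩ := ENNReal.exists_pos_sum_of_countable
    (lt_min h4 (show (0 : ℝ≥0∞) < 2⁻¹ by simp)).ne' ℕ
  have key : ∀ i, ∃ (k : ℕ) (x : Fin n → ℝ), 1 ≤ k ∧ t i ⊆ box (fun _ k => (k : ℝ) ^ (1 / s)) k x ∧
      (k : ℝ≥0∞)⁻¹ ≤ 2 * ((⨆ _ : (t i).Nonempty, ediam (t i) ^ s) + η i) := by
    intro i
    set a : ℝ≥0∞ := (⨆ _ : (t i).Nonempty, ediam (t i) ^ s) + η i with ha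
    have a0 : a ≠ 0 := by simp [ha, (hη i).ne']
    have a1 : a ≤ 1 := by
      rw [← ENNReal.inv_two_add_inv_two]
      refine add_le_add (iSup_le fun _ => (ENNReal.rpow_le_rpow (h3 i) hs.le).trans (le_of_eq ?_))
        ((ENNReal.le_tsum i).trans (hη'.le.trans (min_le_right _ _)))
      rw [← ENNReal.rpow_mul, one_div_mul_cancel hs.ne', ENNReal.rpow_one]
    have a2 : a ≠ ∞ := ne_top_of_le_ne_top (by simp) a1
    lift a to ℝ≥0 using a2 with b hb
    have b0 : (0 : ℝ) < b := by exact_mod_cast pos_iff_ne_zero.2 a0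
    have b1 : (1 : ℝ) ≤ 1 / b := (one_le_div b0).2 (by exact_mod_cast a1)
    have k1 : 1 ≤ ⌊(1 / b : ℝ)⌋₊ := Nat.le_floor (by simpa using b1)
    have k2 := Nat.floor_le (zero_le_one.trans b1)
    have k3 := Nat.lt_floor_add_one (1 / b : ℝ)
    have k4 : (1 : ℝ) ≤ ⌊(1 / b : ℝ)⌋₊ := by exact_mod_cast k1
    obtain ⟨x, hx⟩ : ∃ x : Fin n → ℝ, ∀ y ∈ t i, edist y x ^ s ≤ b := by
      rcases (t i).eq_empty_or_nonempty with e | ⟨x, hx⟩
      · exact ⟨0, by simp [e]⟩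
      · refine ⟨x, fun y hy => (ENNReal.rpow_le_rpow (edist_le_ediam_of_mem hy hx) hs.le).trans ?_⟩
        rw [ha]
        exact le_add_right (le_iSup (fun _ : (t i).Nonempty => ediam (t i) ^ s) ⟨x, hx⟩)
    refine ⟨_, x, k1, fun y hy j => ?_, ?_⟩
    · have c1 := hx y hy
      rw [edist_dist, ENNReal.ofReal_rpow_of_nonneg dist_nonneg hs.le, ENNReal.ofReal_le_coe] at c1
      have c2 : |y j - x j| ^ s ≤ b :=
        (Real.rpow_le_rpow (abs_nonneg _) (dist_le_pi_dist y x j) hs.le).trans c1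
      rw [← Real.rpow_le_rpow_iff (by positivity) zero_le_one hs, Real.one_rpow,
        Real.mul_rpow (by positivity) (abs_nonneg _), ← Real.rpow_mul (by positivity),
        one_div_mul_cancel hs.ne', Real.rpow_one]
      exact (mul_le_mul k2 c2 (by positivity) (by positivity)).trans (one_div_mul_cancel b0.ne').le
    · rw [ENNReal.inv_le_iff_le_mul (fun _ => Nat.cast_ne_zero.2 (by omega)) (by simp)]
      have c3 : (1 : ℝ) ≤ ⌊(1 / b : ℝ)⌋₊ * (2 * b) := by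
        rw [div_lt_iff₀ b0] at k3
        nlinarith
      exact_mod_cast c3
  choose k x k1 k2 k3 using key
  refine ⟨ℕ, inferInstance, k, x, k1, h2.trans (iUnion_mono k2),
    (ENNReal.tsum_le_tsum k3).trans ?_⟩
  rw [ENNReal.tsum_mul_left, ENNReal.tsum_add]
  refine (mul_le_mul_right (add_le_add h5.le (hη'.le.trans (min_le_left _ _))) _).trans ?_
  rw [ENNReal.add_halves, ENNReal.mul_div_cancel (by simp) (by simp)]

end Pool.Agent.Work.MP_707689_an.N.G.F
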