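import Pool.Agent.Work.MP_707689_an.F.Psi
import Pool.Agent.Work.MP_707689_an.F.Four
import Pool.Agent.Work.MP_707689_an.F.Frost

/-! The wave operator for a general reference measure. -/

open MeasureTheory Set Filter Topology Complex Metric
open scoped ENNReal NNReal InnerProductSpace ComplexConjugate Real

namespace Pool.Agent.Work.MP_707689_an.N.G.F

variable {H : Type} [NormedAddCommGroup H] [InnerProductSpace ℂ H] [CompleteSpace H] {n : ℕ}
  {A B : Fin n → H →L[ℂ] H} {E E' : Set (Fin n → ℝ) → H →L[ℂ] H}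
  {μ μ' : H → Measure (Fin n → ℝ)} {ι κ : Type} {l : Filter ι} {l' : Filter κ}
  {f : ι → (Fin n → ℝ) → ℂ} {g : κ → (Fin n → ℝ) → ℂ} {S T : ι → H →L[ℂ] H}
  {S' T' : κ → H →L[ℂ] H} {q : ℕ → Fin n → ℝ} {θ : ℝ} {ρ : Measure (Fin n → ℝ)} {c : ℝ≥0}

/-- the absolutely continuous subspace -/
def acS (ρ : Measure (Fin n → ℝ)) (E : Set (Fin n → ℝ) → H →L[ℂ] H) : Submodule ℂ H where
  carrier := {x | ∀ S, MeasurableSet S → ρ S = 0 → E S x = 0}
  zero_mem' := fun S _ _ => map_zero _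
  add_mem' := fun {a b} ha hb S h1 h2 => by rw [map_add, ha S h1 h2, hb S h1 h2, add_zero]
  smul_mem' := fun c a ha S h1 h2 => by rw [map_smul, ha S h1 h2, smul_zero]

omit [CompleteSpace H] in
theorem acS_closed : IsClosed (acS ρ E : Set H) := by
  have : (acS ρ E : Set H) = ⋂ S, ⋂ _ : MeasurableSet S, ⋂ _ : ρ S = 0, {x | E S x = 0} := by
    ext x
    simp only [mem_iInter]
    rfl
  rw [this]
  exact isClosed_iInter fun S => isClosed_iInter fun _ => isClosed_iInter fun _ =>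
    isClosed_eq (E S).continuous continuous_const

instance : CompleteSpace (acS ρ E) := acS_closed.completeSpace_coe

theorem px_ac (h : PX E μ) {x : H} (hx : x ∈ acS ρ E) : μ x ≪ ρ :=
  Measure.AbsolutelyContinuous.mk fun S h1 h2 => by simp [h.app x S h1, hx S h1 h2]

theorem px_map (h : PX E μ) {φ : (Fin n → ℝ) → ℂ} {U : H →L[ℂ] H} (hU : IC μ φ U) {x : H}
    (hx : x ∈ acS ρ E) : U x ∈ acS ρ E := fun S h1 h2 => by
  have e : E S (U x) = U (E S x) := DFunLike.congr_fun (h.comm (h.ind h1) hU).eq x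
  rw [e, hx S h1 h2, map_zero]

theorem px_null (h : PX E μ) (hS : ∀ i, IC μ (f i) (S i))
    (hz : ∀ z ∈ acS ρ E, Tendsto (fun i => ∫ y, f i y ∂μ z) l (𝓝 0)) {x : H} (hx : x ∈ acS ρ E)
    (y : H) : Tendsto (fun i => ⟪y, S i x⟫_ℂ) l (𝓝 0) := by
  have d : ∀ z ∈ acS ρ E, Tendsto (fun i => ⟪S i z, z⟫_ℂ) l (𝓝 0) := fun z h1 => by
    rw [tendsto_zero_iff_norm_tendsto_zero]
    refine (tendsto_zero_iff_norm_tendsto_zero.1 (hz z h1)).congr fun i => ?_
    rw [← (hS i).eq, norm_inner_symm]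
  have hy := (acS ρ E).starProjection_apply_mem y
  have t := ((((d _ (add_mem hy hx)).sub (d _ (sub_mem hy hx))).add
    ((d _ (add_mem hy (Submodule.smul_mem _ I hx))).const_mul I)).sub
    ((d _ (sub_mem hy (Submodule.smul_mem _ I hx))).const_mul I)).div_const 4
  simp only [mul_zero, sub_zero, add_zero, zero_div] at t
  rw [tendsto_zero_iff_norm_tendsto_zero] at t ⊢
  refine t.congr fun i => ?_
  have e := inner_map_polarization (S i : H →ₗ[ℂ] H) ((acS ρ E).starProjection y) x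
  simp only [ContinuousLinearMap.coe_coe] at e
  rw [← e, ← Submodule.inner_starProjection_left_eq_right, Submodule.starProjection_eq_self_iff.2
    (px_map h (hS i) hx), norm_inner_symm]

theorem sp_frame [SigmaFinite ρ] (hF : FB q ρ c) (h : Sp A E μ) {x : H} (hx : x ∈ acS ρ E) {ε : ℝ} (hε : 0 < ε) :
    ∃ ξ ∈ acS ρ E, ∃ M : ℝ≥0, ‖x - ξ‖ ≤ ε ∧ Frame q M fun k => Ex A k ξ := by
  have := h.pv.fin x
  obtain ⟨ξ, M, h1, h2⟩ := exists_frame hF (E := Ex A) Ex_zero h.add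
    (fun k x y => by rw [← star_inner, h.star, neg_neg]) Ex_cont
    (fun k => norm_of_unit (h.pv.unit (h.ch k) (ch_norm k)).1) x (px_ac h.pv hx)
    (fun k => (h.ch k).eq x) hε
  refine ⟨(acS ρ E).starProjection ξ, (acS ρ E).starProjection_apply_mem ξ, M, ?_, ?_⟩
  · rw [← Submodule.starProjection_eq_self_iff.2 hx, ← map_sub]
    exact ((acS ρ E).norm_starProjection_apply_le _).trans h1
  · have e : ∀ k, (acS ρ E).starProjection (Ex A k ξ) = Ex A k ((acS ρ E).starProjection ξ) :=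
      fun k => by
      refine Submodule.eq_starProjection_of_mem_orthogonal
        (px_map h.pv (h.ch k) ((acS ρ E).starProjection_apply_mem ξ)) fun w hw => ?_
      rw [← map_sub, ← star_inner]
      exact (acS ρ E).sub_starProjection_mem_orthogonal ξ _ (px_map h.pv (h.ch k).star hw)
    simpa only [e] using h2.map (acS ρ E).starProjection_norm_le

/-- unimodular families with their integrals on both sides and compact differences -/
structure Fam (ρ : Measure (Fin n → ℝ)) (E : Set (Fin n → ℝ) → H →L[ℂ] H) (μ μ' : H → Measure (Fin n → ℝ)) {ι : Type}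
    (l : Filter ι) (f : ι → (Fin n → ℝ) → ℂ) (S T : ι → H →L[ℂ] H) : Prop where
  iS : ∀ i, IC μ (f i) (S i)
  iT : ∀ i, IC μ' (f i) (T i)
  one : ∀ i y, ‖f i y‖ = 1
  cp : ∀ i, S i - T i ∈ cpt H
  null : ∀ z ∈ acS ρ E, Tendsto (fun i => ∫ y, f i y ∂μ z) l (𝓝 0)

theorem good_approx [IsLocallyFiniteMeasure ρ] (h : Sp A E μ) (h' : Sp B E' μ') (hK : ∀ j, A j - B j ∈ cpt H)
    {φ : (Fin n → ℝ) → ℂ} (hφ : Measurable φ) (h1 : ∀ y, ‖φ y‖ = 1) {K : Set (Fin n → ℝ)}
    (cK : IsCompact K) {ε : ℝ≥0∞} (hε : ε ≠ 0) :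
    ∃ (ψ : (Fin n → ℝ) → ℂ) (U V : H →L[ℂ] H), IC μ ψ U ∧ IC μ' ψ V ∧ (∀ y, ‖ψ y‖ = 1) ∧
      U - V ∈ cpt H ∧ ∫⁻ y in K, ‖φ y - ψ y‖ₑ ∂ρ ≤ ε := by
  have : IsFiniteMeasure (ρ.restrict K) := isFiniteMeasure_restrict.2 cK.measure_ne_top
  have h2 := (ENNReal.half_pos hε).ne'
  have mθ : Measurable fun y => arg (φ y) := measurable_arg.comp hφ
  obtain ⟨θ, hθ, -⟩ := (Integrable.of_bound (μ := ρ.restrict K) mθ.aestronglyMeasurable π
    (.of_forall fun y => abs_arg_le_pi _)).exists_boundedContinuous_lintegral_sub_le h2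
  obtain ⟨δ, hδ, hδ'⟩ := ENNReal.exists_nnreal_pos_mul_lt (a := ρ K) cK.measure_ne_top h2
  let S : Subalgebra ℝ C(Fin n → ℝ, ℝ) :=
    { carrier := {g | ∃ G G' : H →L[ℂ] H, IC μ (fun p => (g p : ℂ)) G ∧
        IC μ' (fun p => (g p : ℂ)) G' ∧ G - G' ∈ cpt H}
      mul_mem' := fun ⟨G, G', a1, a2, a3⟩ ⟨F, F', b1, b2, b3⟩ =>
        ⟨G * F, G' * F', (h.pv.mul a1 b1).congr fun p => by simp,
          (h'.pv.mul a2 b2).congr fun p => by simp, cpt_mul a3 b3⟩
      add_mem' := fun ⟨G, G', a1, a2, a3⟩ ⟨F, F', b1, b2, b3⟩ =>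
        ⟨G + F, G' + F', (a1.add b1).congr fun p => by simp, (a2.add b2).congr fun p => by simp,
          by rw [add_sub_add_comm]; exact add_mem a3 b3⟩
      algebraMap_mem' := fun c => ⟨(c : ℂ) • 1, (c : ℂ) • 1,
        (h.pv.one.smul c).congr fun p => by simp, (h'.pv.one.smul c).congr fun p => by simp,
        by simp⟩ }
  have hS : S.SeparatesPoints := fun x y hxy => by
    obtain ⟨j, hj⟩ := Function.ne_iff.1 hxy
    exact ⟨_, ⟨⟨fun p => p j, continuous_apply j⟩, ⟨A j, B j, h.int j, h'.int j, hK j⟩, rfl⟩, hj⟩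
  obtain ⟨g, ⟨G, G', a1, a2, a3⟩, hg⟩ :=
    ContinuousMap.exists_mem_subalgebra_near_continuous_of_isCompact_of_separatesPoints hS
      θ.toContinuousMap cK (ε := δ) (by exact_mod_cast hδ)
  refine ⟨_, _, _, h.pv.exp a1, h'.pv.exp a2, fun y => norm_exp_I_mul_ofReal _, cpt_ex a3 1, ?_⟩
  calc _ ≤ ∫⁻ y in K, (‖arg (φ y) - θ y‖ₑ + δ) ∂ρ := by
        refine setLIntegral_mono' cK.measurableSet fun y hy => ?_
        have e : φ y = cexp (I * arg (φ y)) := by
          conv_lhs => rw [← norm_mul_exp_arg_mul_I (φ y), h1, ofReal_one, one_mul, mul_comm]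
        have h3 := exp_lip (arg (φ y)) (g y)
        have h4 := norm_sub_le_norm_sub_add_norm_sub (arg (φ y)) (θ y) (g y)
        have h5 : ‖θ y - g y‖ ≤ δ := by
          rw [norm_sub_rev]
          exact (hg y hy).le
        rw [← e] at h3
        simp only [enorm_eq_nnnorm, ← ENNReal.coe_add, ENNReal.coe_le_coe, ← NNReal.coe_le_coe,
          NNReal.coe_add, coe_nnnorm]
        linarith
    _ ≤ ε / 2 + ε / 2 := by
        rw [lintegral_add_right _ measurable_const, setLIntegral_const]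
        exact add_le_add hθ hδ'.le
    _ = ε := ENNReal.add_halves ε

theorem borel [IsLocallyFiniteMeasure ρ] (h : Sp A E μ) (h' : Sp B E' μ') (hK : ∀ j, A j - B j ∈ cpt H) {W : H →L[ℂ] H}
    (hW : ∀ (f : ℕ → (Fin n → ℝ) → ℂ) (S T : ℕ → H →L[ℂ] H), Fam ρ E μ μ' atTop f S T →
      ∀ x ∈ acS ρ E, Tendsto (fun i => star (T i) (S i x)) atTop (𝓝 (W x)))
    (hW' : ∀ x ∈ acS ρ E, W x ∈ acS ρ E') {f : ℕ → (Fin n → ℝ) → ℂ} {S T : ℕ → H →L[ℂ] H}
    (iS : ∀ i, IC μ (f i) (S i)) (iT : ∀ i, IC μ' (f i) (T i)) (h1 : ∀ i y, ‖f i y‖ = 1)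
    (null : ∀ z ∈ acS ρ E, Tendsto (fun i => ∫ y, f i y ∂μ z) atTop (𝓝 0)) {x : H}
    (hx : x ∈ acS ρ E) : Tendsto (fun i => star (T i) (S i x)) atTop (𝓝 (W x)) := by
  set K := closedBall (0 : Fin n → ℝ) (max (∑ j, ‖A j‖) (∑ j, ‖B j‖)) with hKd
  have cK : IsCompact K := isCompact_closedBall _ _
  obtain ⟨ε, hε, hε'⟩ := ENNReal.exists_pos_sum_of_countable one_ne_zero ℕ
  choose ψ U V iU iV h2 cp h3 using fun i => good_approx (ρ := ρ) h h' hK (iS i).meas (h1 i) cK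
    (ε := ε i) (by exact_mod_cast (hε i).ne')
  have md : ∀ i, Measurable fun y => f i y - ψ i y := fun i => (iS i).meas.sub (iU i).meas
  have bd : ∀ i y, ‖f i y - ψ i y‖ ≤ 2 := fun i y =>
    (norm_sub_le _ _).trans (by rw [h1, h2, one_add_one_eq_two])
  have ae1 : ∀ᵐ y ∂ρ, y ∈ K → Tendsto (fun i => f i y - ψ i y) atTop (𝓝 0) := by
    rw [← ae_restrict_iff' cK.measurableSet]
    have h4 : ∫⁻ y in K, ∑' i, ‖f i y - ψ i y‖ₑ ∂ρ ≠ ∞ := by
      rw [lintegral_tsum fun i => (md i).enorm.aemeasurable]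
      exact ne_top_of_lt ((ENNReal.tsum_le_tsum h3).trans_lt hε')
    filter_upwards [ae_lt_top (Measurable.tsum fun i => (md i).enorm) h4] with y hy
    exact tendsto_zero_iff_enorm_tendsto_zero.2 (ENNReal.tendsto_atTop_zero_of_tsum_ne_top hy.ne)
  have dom : ∀ (ν : Measure (Fin n → ℝ)) [IsFiniteMeasure ν], ν ≪ ρ → (∀ᵐ y ∂ν, y ∈ K) →
      Tendsto (fun i => ∫ y, (f i y - ψ i y) ∂ν) atTop (𝓝 0) ∧
      Tendsto (fun i => ∫ y, ‖f i y - ψ i y‖ ^ 2 ∂ν) atTop (𝓝 0) := by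
    intro ν _ hν hs
    have ae2 : ∀ᵐ y ∂ν, Tendsto (fun i => f i y - ψ i y) atTop (𝓝 0) := by
      filter_upwards [hν.ae_le ae1, hs] with y h4 h5 using h4 h5
    constructor
    · simpa using tendsto_integral_of_dominated_convergence (fun _ => (2 : ℝ))
        (fun i => (md i).aestronglyMeasurable) (integrable_const _)
        (fun i => .of_forall (bd i)) ae2
    · simpa using tendsto_integral_of_dominated_convergence (μ := ν)
        (F := fun i y => ‖f i y - ψ i y‖ ^ 2) (f := fun _ => 0) (fun _ => (2 : ℝ) ^ 2)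
        (fun i => ((md i).norm.pow_const 2).aestronglyMeasurable) (integrable_const _)
        (fun i => .of_forall fun y => by
          rw [norm_pow, norm_norm]
          exact pow_le_pow_left₀ (norm_nonneg _) (bd i y) 2)
        (ae2.mono fun y hy => by simpa using hy.norm.pow 2)
  have dA := fun z (hz : z ∈ acS ρ E) => @dom _ (h.pv.fin z) (px_ac h.pv hz) (h.supp (le_max_left _ _) z)
  have dB := (@dom _ (h'.pv.fin (W x)) (px_ac h'.pv (hW' x hx)) (h'.supp (le_max_right _ _) _)).2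
  have t1 := hW ψ U V ⟨iU, iV, h2, cp, fun z hz => by
    refine (sub_zero (0 : ℂ) ▸ (null z hz).sub (dA z hz).1).congr fun i => ?_
    rw [integral_sub ((iS i).int z) ((iU i).int z), sub_sub_cancel]⟩ x hx
  have t2 := (dA x hx).2
  simp only [fun i => (h.pv.norm_sq ((iS i).sub (iU i)) x).symm] at t2
  simp only [fun i => (h'.pv.norm_sq ((iT i).sub (iV i)) (W x)).symm] at dB
  have t3 := t2.sqrt
  have t4 := dB.sqrt
  simp only [Real.sqrt_sq (norm_nonneg _), Real.sqrt_zero] at t3 t4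
  rw [tendsto_iff_norm_sub_tendsto_zero] at t1 ⊢
  refine squeeze_zero (fun _ => norm_nonneg _) (fun i => ?_)
    (by simpa using (t3.add t1).add t4 : Tendsto (fun i => ‖(S i - U i) x‖ +
      ‖star (V i) (U i x) - W x‖ + ‖(T i - V i) (W x)‖) atTop (𝓝 0))
  have uT := h'.pv.unit (iT i) (h1 i)
  have uV := h'.pv.unit (iV i) (h2 i)
  have e1 : star (T i) (T i (W x)) = W x := by rw [← mul_apply_eq_comp, uT.1, one_apply_eq_self]
  have e2 : V i (star (V i) (U i x)) = U i x := by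
    rw [← mul_apply_eq_comp, uV.2, one_apply_eq_self]
  have e : star (T i) (S i x) - W x = star (T i) ((S i - U i) x + V i (star (V i) (U i x) - W x) -
      (T i - V i) (W x)) := by
    simp only [sub_apply, map_sub, map_add, e1, e2]
    abel
  rw [e, norm_of_unit (by rw [star_star, uT.2]), ← norm_of_unit uV.1 (star (V i) (U i x) - W x)]
  exact (norm_sub_le _ _).trans (add_le_add (norm_add_le _ _) le_rfl)

theorem cauchy' [l.IsCountablyGenerated] [l'.IsCountablyGenerated] [SigmaFinite ρ]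
    (hq : Wt q θ) (hF : FB q ρ c)
    (h : Sp A E μ) (h' : Sp B E' μ')
    (hK : ∀ j, Apy q j (A j - B j)) (hf : Fam ρ E μ μ' l f S T) (hg : Fam ρ E μ μ' l' g S' T')
    {x : H} (hx : x ∈ acS ρ E) {ε : ℝ} (hε : 0 < ε) :
    ∀ᶠ z in l ×ˢ l', ‖star (T z.1) (S z.1 x) - star (T' z.2) (S' z.2 x)‖ ≤ ε := by
  obtain ⟨ξ, hξ, M, h1, hv⟩ := sp_frame hF h hx (ε := ε / 3) (by positivity)
  obtain ⟨η, hη, hη'⟩ := ENNReal.exists_nnreal_pos_mul_lt (a := 2 * n)
    (b := ENNReal.ofReal ((ε / 3) ^ 2 / 2)) (by finiteness)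
    (ENNReal.ofReal_pos.mpr (by positivity)).ne'
  have h0 : (0 : ℝ≥0∞) < η := by exact_mod_cast hη
  have fl : ∀ {φ : (Fin n → ℝ) → ℂ} {U : H →L[ℂ] H}, IC μ φ U →
      Flow q A fun k => U (Ex A k ξ) := fun {φ U} hU => by
    have e : ∀ k, U (Ex A k ξ) = Ex A k (U ξ) := fun k =>
      DFunLike.congr_fun (h.pv.comm hU (h.ch k)).eq ξ
    simpa only [e] using flow h (U ξ)
  have nf := fun y k => px_null h.pv hf.iS hf.null (px_map h.pv (h.ch k) hξ) y
  have ng := fun y k => px_null h.pv hg.iS hg.null (px_map h.pv (h.ch k) hξ) y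
  have ff := fun i => hv.map (le_of_unit (h.pv.unit (hf.iS i) (hf.one i)).1)
  have fg := fun j => hv.map (le_of_unit (h.pv.unit (hg.iS j) (hg.one j)).1)
  filter_upwards [(eventually_all.2 fun j => (hK j).small hq ff nf h0).prod_mk
    (eventually_all.2 fun j => (hK j).small hq fg ng h0)] with z hz
  obtain ⟨s1, s2⟩ := hz
  have uf := h'.pv.unit (hf.iT z.1) (hf.one z.1)
  have ug := h'.pv.unit (hg.iT z.2) (hg.one z.2)
  have vf := h.pv.unit (hf.iS z.1) (hf.one z.1)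
  have vg := h.pv.unit (hg.iS z.2) (hg.one z.2)
  set U := T' z.2 * star (T z.1) with hU
  have hU1 : ‖U‖ ≤ 1 := le_of_unit (by
    rw [hU, star_mul, star_star, mul_assoc, ← mul_assoc (star _), ug.1, one_mul, uf.2])
  have f1 := (fg z.2).map (U := ContinuousLinearMap.adjoint U) (by simpa using hU1)
  have f2 := (ff z.1).map hU1
  have h2 := (key' hq (fun j => (h.int j).sa)
    (fun j => h'.pv.comm (h'.int j) (h'.pv.mul (hg.iT z.2) (hf.iT z.1).star))
    (V := S' z.2 * star (S z.1)) (cpt_apx (by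
      rw [← neg_sub]
      exact neg_mem (cpt_mul (hg.cp _) (cpt_star vf.1 uf.2 (hf.cp _)))))
    (ff z.1) (fg z.2) (fl (hf.iS _)) (fl (hg.iS _)) (c₀ := ⟪ξ, ξ⟫_ℂ) (fun k => by
      rw [mul_apply_eq_comp, ← mul_apply_eq_comp (star _), vf.1,
        one_apply_eq_self, inner_self_eq_norm_sq_to_K, inner_self_eq_norm_sq_to_K,
        norm_of_unit vg.1, norm_of_unit (h.pv.unit (h.ch k) (ch_norm k)).1])).trans
    ((Finset.sum_le_sum fun j _ => add_le_add (s1 j _ f1).1 (s2 j _ f2).2).trans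
      (le_trans (le_of_eq (by simp; ring)) hη'.le))
  rw [← ofReal_norm, ENNReal.ofReal_le_ofReal_iff (by positivity), Ex_zero, one_apply_eq_self,
    mul_apply_eq_comp, ← star_inner] at h2
  have nf1 := unit_norm vf.1 uf.2
  have ng1 := unit_norm vg.1 ug.2
  have h3 : ‖star (T z.1) (S z.1 ξ) - star (T' z.2) (S' z.2 ξ)‖ ≤ ε / 3 := by
    refine le_of_sq_le_sq ?_ (by positivity)
    rw [norm_sub_rev, norm_sub_sq (𝕜 := ℂ), nf1, ng1]
    have h4 := (abs_le.mp ((RCLike.abs_re_le_norm (K := ℂ) _).trans h2)).1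
    rw [map_sub, inner_self_eq_norm_sq] at h4
    linarith
  have h5 := dist_triangle4 (star (T z.1) (S z.1 x)) (star (T z.1) (S z.1 ξ))
    (star (T' z.2) (S' z.2 ξ)) (star (T' z.2) (S' z.2 x))
  rw [dist_comm (star (T' z.2) (S' z.2 ξ))] at h5
  simp only [dist_eq_norm, ← map_sub, nf1, ng1] at h5
  linarith

theorem fam_ch [SigmaFinite ρ] {k : ℕ → Fin n → ℝ} (hk : ∀ g : (Fin n → ℝ) → ℂ, Integrable g ρ →
      Tendsto (fun i => ∫ y, ch (k i) y * g y ∂ρ) atTop (𝓝 0))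
    (h : Sp A E μ) (h' : Sp B E' μ') (hK : ∀ j, A j - B j ∈ cpt H) :
    Fam ρ E μ μ' atTop (fun t => ch (k t)) (fun t => Ex A (k t)) fun t => Ex B (k t) :=
  ⟨fun _ => h.ch _, fun _ => h'.ch _, fun _ _ => ch_norm _ _, fun _ => Ex_cpt hK _, fun z hz => by
    have := h.pv.fin z
    refine (hk (fun y => (((μ z).rnDeriv ρ y).toReal : ℂ))
      (Measure.integrable_toReal_rnDeriv.ofReal)).congr fun i => ?_
    rw [← integral_rnDeriv_smul (px_ac h.pv hz)]
    simp only [real_smul, mul_comm]⟩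

theorem wave0 [SigmaFinite ρ] {k : ℕ → Fin n → ℝ} (hk : ∀ g : (Fin n → ℝ) → ℂ, Integrable g ρ →
      Tendsto (fun i => ∫ y, ch (k i) y * g y ∂ρ) atTop (𝓝 0)) (hq : Wt q θ) (hF : FB q ρ c)
    (h : Sp A E μ) (h' : Sp B E' μ') (hK : ∀ j, Apy q j (A j - B j)) : ∃ W : H →L[ℂ] H,
      (∀ (ι : Type) (l : Filter ι) [l.IsCountablyGenerated] (f : ι → (Fin n → ℝ) → ℂ)
        (S T : ι → H →L[ℂ] H), Fam ρ E μ μ' l f S T →
        ∀ x ∈ acS ρ E, Tendsto (fun i => star (T i) (S i x)) l (𝓝 (W x))) ∧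
      (∀ x ∈ acS ρ E, ‖W x‖ = ‖x‖ ∧ ∀ j, W (A j x) = B j (W x)) ∧
      ∀ x ∈ acS ρ E, μ' (W x) = μ x ∧ W x ∈ acS ρ E' := by
  have hC := fun j => (hK j).cpt
  have F := fam_ch hk h h' hC
  have u := fun t => h'.pv.unit (F.iT t) (F.one t)
  have v := fun t => h.pv.unit (F.iS t) (F.one t)
  have ex1 : ∀ x : H, ∃ y, Tendsto (fun t : ℕ => star (Ex B (k t))
      (Ex A (k t) ((acS ρ E).starProjection x))) atTop (𝓝 y) := fun x => by
    rw [← cauchy_map_iff_exists_tendsto, cauchy_map_iff',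
      Metric.uniformity_basis_dist_le.tendsto_right_iff]
    intro ε hε
    simpa only [mem_ofPred_eq, dist_eq_norm] using cauchy' hq hF h h' hK F F
      ((acS ρ E).starProjection_apply_mem x) hε
  choose w hw using ex1
  have hw' : ∀ x ∈ acS ρ E, Tendsto (fun t : ℕ => star (Ex B (k t))
      (Ex A (k t) x)) atTop (𝓝 (w x)) :=
    fun x hx => by simpa only [Submodule.starProjection_eq_self_iff.2 hx] using hw x
  have int : ∀ {φ : (Fin n → ℝ) → ℂ} {U V : H →L[ℂ] H}, IC μ φ U → IC μ' φ V →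
      U - V ∈ cpt H → ∀ x ∈ acS ρ E, w (U x) = V (w x) := by
    intro φ U V c1 c2 hK x hx
    refine tendsto_nhds_unique (hw' _ (px_map h.pv c1 hx)) ?_
    have t1 := cpt_strong hK (norm_nonneg x) (fun t : ℕ => norm_of_unit (v t).1 x)
      (px_null h.pv F.iS F.null hx)
    have t2 : Tendsto (fun t : ℕ => star (Ex B (k t))
        ((U - V) (Ex A (k t) x))) atTop (𝓝 0) := by
      rw [tendsto_zero_iff_norm_tendsto_zero] at t1 ⊢
      refine t1.congr fun t => (norm_of_unit ?_ _).symm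
      rw [star_star, (u t).2]
    have t3 := ((V.continuous.tendsto _).comp (hw' x hx)).add t2
    rw [add_zero] at t3
    refine t3.congr fun t => ?_
    have e1 : U (Ex A (k t) x) = Ex A (k t) (U x) :=
      DFunLike.congr_fun (h.pv.comm c1 (h.ch _)).eq x
    have e2 : ∀ y, V (star (Ex B (k t)) y) = star (Ex B (k t)) (V y) :=
      fun y => DFunLike.congr_fun (h'.pv.comm c2 (h'.ch _).star).eq y
    simp [e1, e2]
  have iso : ∀ x ∈ acS ρ E, ∀ y ∈ acS ρ E, ⟪w x, w y⟫_ℂ = ⟪x, y⟫_ℂ := fun x hx y hy => by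
    refine tendsto_nhds_unique ((hw' x hx).inner (hw' y hy)) (tendsto_const_nhds.congr fun t => ?_)
    rw [star_inner, ← mul_apply_eq_comp (Ex B _), (u t).2, one_apply_eq_self,
      ← star_star (Ex A _), star_inner, star_star, ← mul_apply_eq_comp, (v t).1, one_apply_eq_self]
  refine ⟨continuousLinearMapOfTendsto (fun t : ℕ => star (Ex B (k t)) *
    Ex A (k t) * (acS ρ E).starProjection) (f := w) (tendsto_pi_nhds.2 hw),
    fun ι l _ f S T hf x hx => ?_,
    fun x hx => ⟨?_, fun j => int (h.int j) (h'.int j) (hC j) x hx⟩, fun x hx => ?_⟩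
  · rw [Metric.nhds_basis_closedBall.tendsto_right_iff]
    intro ε hε
    filter_upwards [(cauchy' hq hF h h' hK hf F hx hε).curry] with i hi
    rw [Metric.mem_closedBall, dist_eq_norm]
    exact le_of_tendsto ((hw' x hx).const_sub _).norm hi
  · refine tendsto_nhds_unique (hw' x hx).norm ?_
    simp only [fun t => unit_norm (v t).1 (u t).2 x]
    exact tendsto_const_nhds
  · have := h.pv.fin x
    have := h'.pv.fin (w x)
    have e : μ' (w x) = μ x := Measure.ext_of_charFunDual (funext fun L => by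
      have e1 : ∀ p : Fin n → ℝ, cexp (L p * I) = ch (fun j => L (Pi.single j 1)) p := fun p => by
        have e2 : L p = ∑ j, L (Pi.single j 1) * p j := by
          conv_lhs => rw [pi_eq_sum_univ' p, map_sum]
          exact Finset.sum_congr rfl fun j _ => by rw [map_smul, smul_eq_mul, mul_comm]
        rw [ch, e2, mul_comm]
      simp only [charFunDual_apply, e1]
      rw [← (h'.ch _).eq, ← (h.ch _).eq, ← int (h.ch _) (h'.ch _) (Ex_cpt hC _) x hx,
        iso x hx _ (px_map h.pv (h.ch _) hx)])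
    refine ⟨e, fun S hS h0 => ?_⟩
    have h1 := h'.pv.app (w x) S hS
    rw [e, px_ac h.pv hx h0] at h1
    change E' S (w x) = 0
    simpa using h1.symm

/-- the properties of the wave operator for the reference measure `ρ` -/
structure Wv (ρ : Measure (Fin n → ℝ)) (A B : Fin n → H →L[ℂ] H)
    (E E' : Set (Fin n → ℝ) → H →L[ℂ] H) (μ μ' : H → Measure (Fin n → ℝ)) (W : H →L[ℂ] H) :
    Prop where
  lim : ∀ (f : ℕ → (Fin n → ℝ) → ℂ) (S T : ℕ → H →L[ℂ] H), (∀ i, IC μ (f i) (S i)) →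
    (∀ i, IC μ' (f i) (T i)) → (∀ i y, ‖f i y‖ = 1) →
    (∀ z ∈ acS ρ E, Tendsto (fun i => ∫ y, f i y ∂μ z) atTop (𝓝 0)) →
    ∀ x ∈ acS ρ E, Tendsto (fun i => star (T i) (S i x)) atTop (𝓝 (W x))
  iso : ∀ x ∈ acS ρ E, ‖W x‖ = ‖x‖ ∧ ∀ j, W (A j x) = B j (W x)
  sc : ∀ x ∈ acS ρ E, μ' (W x) = μ x
  onto : ∀ y ∈ acS ρ E', ∃ x ∈ acS ρ E, W x = y
  seq : ∃ k : ℕ → Fin n → ℝ, ∀ z ∈ acS ρ E, Tendsto (fun i => ∫ y, ch (k i) y ∂μ z) atTop (𝓝 0)

theorem wave1 {Φ : Fin n → ℕ → ℝ} (hθ : θ < 2) (hm : ∀ j, Monotone (Φ j))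
    (hp : ∀ j, 0 < Φ j 1) (hd : ∀ j k, 1 ≤ k → Φ j (2 * k) ≤ θ * Φ j k) (hs : Fm Φ ρ)
    (hK : ∀ j, Summable fun k : ℕ => sv (A j - B j) k * Φ j (k + 1) / ((k : ℝ) + 1))
    (h : Sp A E μ) (h' : Sp B E' μ') : ∃ W, Wv ρ A B E E' μ μ' W := by
  obtain ⟨C, hs⟩ := hs
  have hp2 : ∀ j m, 0 < Φ j (2 ^ m) := fun j m => (hp j).trans_le (hm j Nat.one_le_two_pow)
  have ht : 0 < max θ 1 := one_pos.trans_le (le_max_right _ _)
  have hd' : ∀ j k, 1 ≤ k → Φ j (2 * k) ≤ max θ 1 * Φ j k := fun j k hk => (hd j k hk).trans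
    (mul_le_mul_of_nonneg_right (le_max_left _ _) ((hp j).le.trans (hm j hk)))
  let q : ℕ → Fin n → ℝ := fun m => Nat.casesOn m 0 fun m j => Φ j (2 ^ m)
  have hq : Wt q (max θ 1) := ⟨rfl, fun m j => by
      cases m with
      | zero => exact (hp2 j 0).le
      | succ m => exact hm j (Nat.pow_le_pow_right two_pos m.le_succ), fun m j => hp2 j m,
    fun m j => by
      have h1 := hd' j (2 ^ m) Nat.one_le_two_pow
      rwa [← pow_succ'] at h1, max_lt hθ one_lt_two, ht⟩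
  have : IsLocallyFiniteMeasure ρ := ⟨fun x => ⟨{y | ∀ j, Φ j 1 * |y j - x j| ≤ 1},
    eventually_all.2 fun j => (ContinuousAt.eventually_lt (f := fun y : Fin n → ℝ =>
      Φ j 1 * |y j - x j|) (g := fun _ => 1) (continuous_const.mul
        ((continuous_apply j).sub continuous_const).abs).continuousAt continuousAt_const (by simp)).mono
        fun _ hy => hy.le, by simpa [box] using (hs 1 le_rfl x).trans_lt ENNReal.coe_lt_top⟩⟩
  obtain ⟨c, hF⟩ := Fro.fb (ν := ρ) (C := C) hq fun m x => by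
    simpa [box] using hs (2 ^ m) Nat.one_le_two_pow x
  obtain ⟨κ, hκ⟩ := hF.null
  have k : ∀ j, Apy q j (A j - B j) := fun j => apy_of_dyadic hq
    (dyadic (sval_anti _) (sval_nonneg _) (hm j) (hp j).le ht.le (hd' j) (hK j))
  obtain ⟨W, h1, h2, h3⟩ := wave0 hκ hq hF h h' k
  obtain ⟨W', g1, -, g3⟩ := wave0 hκ hq hF h' h fun j => (k j).neg
  have F := fam_ch hκ h h' (fun j => (k j).cpt)
  refine ⟨W, fun f S T iS iT c2 c3 x hx => borel h h' (fun j => (k j).cpt) (h1 ℕ atTop)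
    (fun x hx => (h3 x hx).2) iS iT c2 c3 hx, h2, fun x hx => (h3 x hx).1,
    fun y hy => ⟨W' y, (g3 y hy).2, ?_⟩, κ, F.null⟩
  refine tendsto_nhds_unique (h1 _ _ _ _ _ F _ (g3 y hy).2) ?_
  have t := g1 _ _ _ _ _ (fam_ch hκ h' h (fun j => (k j).neg.cpt)) y hy
  rw [tendsto_iff_norm_sub_tendsto_zero] at t ⊢
  refine t.congr fun t => ?_
  have u := h'.pv.unit (F.iT t) (F.one t)
  have v := h.pv.unit (F.iS t) (F.one t)
  rw [← unit_norm v.1 u.2, map_sub, map_sub, ← mul_apply_eq_comp (Ex A _), v.2,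
    one_apply_eq_self, ← mul_apply_eq_comp, u.1, one_apply_eq_self, norm_sub_rev]

end Pool.Agent.Work.MP_707689_an.N.G.F
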