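import Pool.Agent.Work.MP_707689_an.F.Base

/-! The estimates along the polygonal curves for localized frames. -/

open MeasureTheory Set Filter Topology Complex
open scoped ENNReal NNReal InnerProductSpace

namespace Pool.Agent.Work.MP_707689_an.N.G.F

variable {H : Type} [NormedAddCommGroup H] [InnerProductSpace ℂ H] [CompleteSpace H] {n : ℕ}
  {φ : ℕ → Fin n → ℝ} {θ : ℝ} {j : Fin n} {M : ℝ≥0} {v w : (Fin n → ℝ) → H}

theorem loc_le (hφ : Wt φ θ) {g : (Fin n → ℝ) → ℝ≥0∞} {C : ℝ≥0∞} (hC : ∀ k, g k ≤ C) (T : ℕ) :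
    ∑ m ∈ Finset.range T, av φ j g m ≤ C * ENNReal.ofReal (φ T j) := by
  refine (Finset.sum_le_sum fun m _ => av_le fun τ _ => sq_le' fun _ => hC _).trans (le_of_eq ?_)
  rw [← Finset.sum_mul, ← ENNReal.ofReal_sum_of_nonneg fun m _ => sub_nonneg.2 (hφ.mono m j),
    Finset.sum_range_sub (fun m => φ m j), hφ.zero, Pi.zero_apply, sub_zero, mul_comm]

theorem Wt.pow (hφ : Wt φ θ) (T i : ℕ) : φ (T + 1 + i) j ≤ θ ^ i * φ (T + 1) j := by
  induction i with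
  | zero => simp
  | succ i ih =>
    rw [show T + 1 + (i + 1) = T + i + 2 by ring, pow_succ', mul_assoc]
    refine (hφ.dbl _ j).trans (mul_le_mul_of_nonneg_left ?_ hφ.tpos.le)
    rwa [show T + i + 1 = T + 1 + i by ring]

theorem Psi_split (hφ : Wt φ θ) {g : (Fin n → ℝ) → ℝ≥0∞} (hg : Measurable g) {d : ℝ≥0∞}
    (hd : Loc φ g d) (T : ℕ) :
    Psi φ j g ≤ ∑ m ∈ Finset.range (T + 1), av φ j g m +
      d * ENNReal.ofReal (θ * (1 - θ / 2)⁻¹ * (φ (T + 1) j / 2 ^ T)) := by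
  have h0 := hφ.tpos
  have h1 : θ / 2 < 1 := by linarith [hφ.lt]
  have hp := hφ.pos T j
  rw [Psi, ← ENNReal.summable.sum_add_tsum_nat_add' (k := T + 1)]
  refine add_le_add le_rfl ?_
  have hs := (hasSum_geometric_of_lt_one (by positivity) h1).mul_left (θ * (φ (T + 1) j / 2 ^ T))
  rw [mul_right_comm, ← hs.tsum_eq, ENNReal.ofReal_tsum_of_nonneg (fun _ => by positivity)
    hs.summable, ← ENNReal.tsum_mul_left]
  refine ENNReal.tsum_le_tsum fun i => ?_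
  rw [show i + (T + 1) = (T + i) + 1 by ring]
  refine (av_le fun τ hτ => seg_le hg hd _ hτ.1.le).trans ?_
  rw [← mul_assoc, mul_comm d, ← ENNReal.ofReal_mul (sub_nonneg.2 (hφ.mono _ j))]
  refine mul_le_mul_left (ENNReal.ofReal_le_ofReal ?_) _
  have h2 := hφ.pow (j := j) T (i + 1)
  rw [show T + 1 + (i + 1) = T + i + 1 + 1 by ring] at h2
  refine (mul_le_mul_of_nonneg_right ((sub_le_self _ (hφ.pos _ j).le).trans h2)
    (by positivity)).trans (le_of_eq ?_)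
  rw [pow_succ, pow_add, div_pow]
  field_simp

theorem Psi_rank (hφ : Wt φ θ) (hv : Frame φ M v) (hw : Frame φ M w) {r : ℕ}
    {D : H →L[ℂ] H} (hD : Rk r D) {T : ℕ} (hr : (r : ℝ) ≤ 3 * 2 ^ T) :
    Psi φ j (fun k => ‖⟪w k, D (v k)⟫_ℂ‖ₑ) ≤
      M ^ 2 * ENNReal.ofReal ((1 + 3 * (θ * (1 - θ / 2)⁻¹)) * (‖D‖ * φ (T + 1) j)) := by
  have h0 := hφ.tpos
  have h1 : 0 < 1 - θ / 2 := by linarith [hφ.lt]
  have hp := hφ.pos T j
  refine (Psi_split hφ (meas_pair hv hw D) (lint_rank hv hw hD) T).trans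
    ((add_le_add (loc_le hφ (pair_le hv hw D) _) le_rfl).trans ?_)
  have h2 : (r : ℝ≥0∞) * ENNReal.ofReal (θ * (1 - θ / 2)⁻¹ * (φ (T + 1) j / 2 ^ T)) ≤
      ENNReal.ofReal (3 * (θ * (1 - θ / 2)⁻¹) * φ (T + 1) j) := by
    rw [← ENNReal.ofReal_natCast, ← ENNReal.ofReal_mul (Nat.cast_nonneg _)]
    refine ENNReal.ofReal_le_ofReal ((mul_le_mul_of_nonneg_right hr (by positivity)).trans
      (le_of_eq ?_))
    field_simp
  rw [mul_assoc _ (r : ℝ≥0∞)]
  refine (add_le_add le_rfl (mul_le_mul_right h2 _)).trans (le_of_eq ?_)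
  rw [← mul_add, ← ENNReal.ofReal_add (by positivity) (by positivity), mul_assoc, ← ofReal_norm,
    ← ENNReal.ofReal_mul (norm_nonneg _)]
  congr 2
  ring

theorem decay' {ι : Type} {l : Filter ι} [l.IsCountablyGenerated] (hφ : Wt φ θ)
    {v : ι → (Fin n → ℝ) → H} (hv : ∀ i, Frame φ M (v i))
    (hz : ∀ h k, Tendsto (fun i => ⟪h, v i k⟫_ℂ) l (𝓝 0)) {m : ℕ} (e f : Fin m → H)
    {d ε : ℝ≥0∞} (hd : d ≠ ∞) (hε : 0 < ε) :
    ∀ᶠ i in l, ∀ w : (Fin n → ℝ) → H, Frame φ M w → ∀ g : (Fin n → ℝ) → ℝ≥0∞, Measurable g →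
      Loc φ g d → (∀ k, g k ≤ ∑ i', ‖⟪e i', w k⟫_ℂ‖ₑ * ‖⟪f i', v i k⟫_ℂ‖ₑ) →
      Psi φ j g ≤ ε := by
  have h2 := ENNReal.half_pos hε.ne'
  have h0 := hφ.tpos
  have h1 : θ / 2 < 1 := by linarith [hφ.lt]
  have t0 : Tendsto (fun T : ℕ => φ (T + 1) j / 2 ^ T) atTop (𝓝 0) := by
    refine squeeze_zero (fun T => div_nonneg (hφ.pos T j).le (by positivity)) (fun T => ?_)
      (by simpa using (tendsto_pow_atTop_nhds_zero_of_lt_one (by positivity) h1).mul_const (φ 1 j))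
    have h3 := hφ.pow (j := j) 0 T
    rw [zero_add, add_comm] at h3
    rw [div_pow, div_mul_eq_mul_div]
    gcongr
  have t1 : Tendsto (fun T : ℕ => d * ENNReal.ofReal (θ * (1 - θ / 2)⁻¹ * (φ (T + 1) j / 2 ^ T)))
      atTop (𝓝 0) := by
    simpa using ENNReal.Tendsto.const_mul (a := d) (ENNReal.tendsto_ofReal
      (t0.const_mul (θ * (1 - θ / 2)⁻¹))) (Or.inr hd)
  obtain ⟨T, hT⟩ := (ENNReal.tendsto_nhds_zero.mp t1 _ h2).exists
  have t2 := loc_zero (φ := φ) (j := j) (l := l)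
    (G := fun i k => ∑ i', ‖e i'‖ₑ * M * ‖⟪f i', v i k⟫_ℂ‖ₑ)
    (fun i => Finset.measurable_sum _ fun j _ => ((hv i).meas _).const_mul _)
    (C := ∑ i', ‖e i'‖ₑ * M * (‖f i'‖ₑ * M)) (ENNReal.sum_ne_top.2 fun j _ => by finiteness)
    (fun i k => Finset.sum_le_sum fun j _ => mul_le_mul_right (inner_le_frame (hv i) _ _) _)
    (fun k => by
      have := tendsto_finsetSum Finset.univ fun j _ => ENNReal.Tendsto.const_mul
        (a := ‖e j‖ₑ * M) (hz (f j) k).enorm (Or.inr (by finiteness))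
      simpa using this) (T + 1)
  filter_upwards [ENNReal.tendsto_nhds_zero.mp t2 _ h2] with i hi w hw g hg hgd hgs
  refine (Psi_split hφ hg hgd T).trans ((add_le_add (le_trans (Finset.sum_le_sum fun s _ =>
    av_mono (fun k => (hgs k).trans (Finset.sum_le_sum fun j _ => ?_)) s) hi) hT).trans
    (ENNReal.add_halves ε).le)
  exact mul_le_mul_left (inner_le_frame hw _ _) _

/-- approximation by finite rank operators for the weight `j` -/
def Apy (φ : ℕ → Fin n → ℝ) (j : Fin n) (K : H →L[ℂ] H) : Prop :=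
  ∀ ε : ℝ≥0∞, 0 < ε → ∃ F r, Rk r F ∧ ‖K - F‖ₑ ≤ ε ∧ ∀ (M : ℝ≥0) (v w : (Fin n → ℝ) → H),
    Frame φ M v → Frame φ M w → Psi φ j (fun k => ‖⟪w k, (K - F) (v k)⟫_ℂ‖ₑ) ≤ M ^ 2 * ε

theorem Apy.small {ι : Type} {l : Filter ι} [l.IsCountablyGenerated] (hφ : Wt φ θ)
    {K : H →L[ℂ] H} (hK : Apy φ j K) {v : ι → (Fin n → ℝ) → H} (hv : ∀ i, Frame φ M (v i))
    (hz : ∀ h k, Tendsto (fun i => ⟪h, v i k⟫_ℂ) l (𝓝 0)) {ε : ℝ≥0∞} (hε : 0 < ε) :
    ∀ᶠ i in l, ∀ w : (Fin n → ℝ) → H, Frame φ M w →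
      Psi φ j (fun k => ‖⟪w k, K (v i k)⟫_ℂ‖ₑ) ≤ ε ∧
      Psi φ j (fun k => ‖⟪v i k, K (w k)⟫_ℂ‖ₑ) ≤ ε := by
  have h2 := ENNReal.half_pos hε.ne'
  obtain ⟨δ, hδ, hδ'⟩ := ENNReal.exists_nnreal_pos_mul_lt (a := (M : ℝ≥0∞) ^ 2) (by finiteness)
    h2.ne'
  obtain ⟨F, r, hF, -, hΦ⟩ := hK δ (by exact_mod_cast hδ)
  obtain ⟨m, e, f, -, -, -, h⟩ := hF.decomp
  have hd : (M : ℝ≥0∞) ^ 2 * ‖F‖ₑ * r ≠ ∞ := by finiteness
  rw [mul_comm] at hδ'
  filter_upwards [decay' (j := j) hφ hv hz e f hd h2, decay' (j := j) hφ hv hz f e hd h2]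
    with i h3 h4 w hw
  have hs := hv i
  constructor
  · refine (Psi_add (meas_pair hs hw _) fun k => split_pair K F _ _).trans
      ((add_le_add ((hΦ M _ _ hs hw).trans hδ'.le) ?_).trans (ENNReal.add_halves ε).le)
    exact h3 w hw _ (meas_pair hs hw _) (lint_rank hs hw hF) fun k => h _ _
  · refine (Psi_add (meas_pair hw hs _) fun k => split_pair K F _ _).trans
      ((add_le_add ((hΦ M _ _ hw hs).trans hδ'.le) ?_).trans (ENNReal.add_halves ε).le)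
    exact h4 w hw _ (meas_pair hw hs _) (lint_rank hw hs hF) fun k =>
      (h _ _).trans (le_of_eq (by simp only [mul_comm]))

theorem boundary (hφ : Wt φ θ) {K : H →L[ℂ] H}
    (hK : ∀ ε : ℝ≥0∞, 0 < ε → ∃ F r, Rk r F ∧ ‖K - F‖ₑ ≤ ε)
    (hv : Frame φ M v) (hw : Frame φ M w) {ε : ℝ≥0∞} (hε : 0 < ε) :
    ∃ m : ℕ, ∫⁻ u in Q n, ‖⟪w (seg φ m 0 u), K (v (seg φ m 0 u))⟫_ℂ‖ₑ ≤ ε := by
  have h2 := ENNReal.half_pos hε.ne'
  obtain ⟨δ, hδ, hδ'⟩ := ENNReal.exists_nnreal_pos_mul_lt (a := (M : ℝ≥0∞) ^ 2) (by finiteness)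
    h2.ne'
  obtain ⟨F, r, hF, hn⟩ := hK δ (by exact_mod_cast hδ)
  obtain ⟨η, hη, hη'⟩ := ENNReal.exists_nnreal_pos_mul_lt
    (a := (M : ℝ≥0∞) ^ 2 * ‖F‖ₑ * r) (by finiteness) h2.ne'
  obtain ⟨m, hm⟩ := exists_pow_lt_of_lt_one (show (0 : ℝ) < η by exact_mod_cast hη)
    (show (2 : ℝ)⁻¹ < 1 by norm_num)
  refine ⟨m + 1, (lintegral_mono fun u => split_pair K F _ _).trans ?_⟩
  rw [lintegral_add_left (f := fun u => ‖⟪w (seg φ (m + 1) 0 u),
    (K - F) (v (seg φ (m + 1) 0 u))⟫_ℂ‖ₑ) ((meas_pair hv hw _).comp (seg_meas φ _ _))]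
  refine (add_le_add (sq_le' fun u => (pair_le hv hw _ _).trans ?_)
    ((seg_le (meas_pair hv hw F) (lint_rank hv hw hF) m le_rfl).trans ?_)).trans (ENNReal.add_halves ε).le
  · exact (mul_le_mul_right hn _).trans (by rw [mul_comm]; exact hδ'.le)
  · refine (mul_le_mul' ?_ le_rfl).trans hη'.le
    rw [← ENNReal.ofReal_coe_nnreal, ← inv_pow]
    exact ENNReal.ofReal_le_ofReal hm.le

theorem Wt.one_le (hφ : Wt φ θ) (m : ℕ) : 1 ≤ φ (m + 1) j / φ 1 j :=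
  (one_le_div (hφ.pos 0 j)).2 (monotone_nat_of_le_succ (f := fun m => φ m j) (hφ.mono · j)
    (Nat.le_add_left 1 m))

theorem apy_of_seq (hφ : Wt φ θ) {K : H →L[ℂ] H} (F : ℕ → H →L[ℂ] H) (r r' : ℕ → ℕ)
    (hF : ∀ m, Rk (r m) (F m)) (hD : ∀ m, Rk (r' m) (F (m + 1) - F m))
    (hr : ∀ m, (r' m : ℝ) ≤ 3 * 2 ^ m) (hs : Summable fun m => ‖F (m + 1) - F m‖ * φ (m + 1) j)
    (hl : Tendsto F atTop (𝓝 K)) : Apy φ j K := by
  intro ε hε
  have h0 : 0 < 1 - θ / 2 := by linarith [hφ.lt]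
  have h0' := hφ.tpos
  have h1 := ENNReal.tendsto_ofReal (tendsto_sum_nat_add fun m =>
    (1 + 3 * (θ * (1 - θ / 2)⁻¹)) * (‖F (m + 1) - F m‖ * φ (m + 1) j))
  have h2 : Tendsto (fun m => ‖K - F m‖ₑ) atTop (𝓝 0) := by
    simpa using (hl.const_sub K).enorm
  rw [ENNReal.ofReal_zero] at h1
  obtain ⟨n, hn1, hn2⟩ := ((ENNReal.tendsto_nhds_zero.mp h1 ε hε).and
    (ENNReal.tendsto_nhds_zero.mp h2 ε hε)).exists
  refine ⟨F n, r n, hF n, hn2, fun M v w hv hw => ?_⟩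
  have hs' : Summable fun m => ‖F (m + n + 1) - F (m + n)‖ * φ (m + n + 1) j :=
    (summable_nat_add_iff (f := fun m => ‖F (m + 1) - F m‖ * φ (m + 1) j) n).mpr hs
  have hsum : HasSum (fun m => F (m + n + 1) - F (m + n)) (K - F n) := by
    rw [hasSum_iff_tendsto_nat_of_summable_norm ((hs'.div_const (φ 1 j)).of_nonneg_of_le
      (fun _ => norm_nonneg _) fun m => by
        rw [mul_div_assoc]
        exact le_mul_of_one_le_right (norm_nonneg _) (hφ.one_le _))]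
    have e : ∀ j, ∑ m ∈ Finset.range j, (F (m + n + 1) - F (m + n)) = F (j + n) - F n := by
      intro j
      simpa [add_right_comm] using Finset.sum_range_sub (fun m => F (m + n)) j
    simp only [e]
    exact (hl.comp (tendsto_add_atTop_nat n)).sub_const _
  have h3 : ∀ k, ‖⟪w k, (K - F n) (v k)⟫_ℂ‖ₑ ≤
      ∑' m, ‖⟪w k, (F (m + n + 1) - F (m + n)) (v k)⟫_ℂ‖ₑ := fun k => by
    have := (hsum.mapL ((innerSL ℂ (w k)).comp (ContinuousLinearMap.apply ℂ H (v k)))).tsum_eq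
    exact le_trans (le_of_eq (congrArg _ this.symm)) enorm_tsum_le_tsum_enorm
  refine (Psi_tsum (fun m => meas_pair hv hw _) h3).trans ?_
  refine (ENNReal.tsum_le_tsum fun m => Psi_rank hφ hv hw (hD (m + n)) (hr _)).trans ?_
  rw [ENNReal.tsum_mul_left, ← ENNReal.ofReal_tsum_of_nonneg
    (fun m => by have := hφ.pos (m + n) j; positivity) (hs'.mul_left _)]
  gcongr

theorem apy_of_dyadic (hφ : Wt φ θ) {K : H →L[ℂ] H}
    (h : Summable fun m : ℕ => sval K (2 ^ m) * φ (m + 1) j) : Apy φ j K := by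
  have h0 := sval_nonneg K
  have hanti := sval_anti K
  have hex : ∀ m : ℕ, ∃ F : H →L[ℂ] H, Rk (2 ^ m) F ∧ ‖K - F‖ ≤ sval K (2 ^ m) + (1 / 4) ^ m := by
    intro m
    obtain ⟨_, ⟨F, hF, rfl⟩, hlt⟩ := exists_lt_of_csInf_lt
      (s := {r : ℝ | ∃ F : H →L[ℂ] H, Rk (2 ^ m) F ∧ r = ‖K - F‖}) ⟨_, 0, by simp [Rk], rfl⟩
      (show sval K (2 ^ m) < sval K (2 ^ m) + (1 / 4) ^ m by simp)
    exact ⟨F, hF, hlt.le⟩
  choose F hF hFn using hex
  have hb : Summable fun m => (sval K (2 ^ m) + (1 / 4) ^ m) * φ (m + 1) j := by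
    simp only [add_mul]
    refine h.add ((summable_geometric_two.mul_right (φ 1 j)).of_nonneg_of_le
      (fun m => by have := hφ.pos m j; positivity) fun m => ?_)
    have h1 := hφ.pow (j := j) 0 m
    rw [zero_add, add_comm] at h1
    refine (mul_le_mul_of_nonneg_left h1 (by positivity)).trans ?_
    rw [← mul_assoc, ← mul_pow]
    exact mul_le_mul_of_nonneg_right (pow_le_pow_left₀ (by have := hφ.tpos; positivity)
      (by linarith [hφ.lt]) m) (hφ.pos 0 j).le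
  refine apy_of_seq hφ F (fun m => 2 ^ m) (fun m => 2 ^ (m + 1) + 2 ^ m) hF
    (fun m => (hF _).sub (hF _)) (fun m => le_of_eq (by push_cast; ring))
    ((hb.mul_left 2).of_nonneg_of_le
      (fun m => mul_nonneg (norm_nonneg _) (hφ.pos m j).le) fun m => ?_) ?_
  · rw [← mul_assoc]
    refine mul_le_mul_of_nonneg_right ?_ (hφ.pos m j).le
    have h1 : sval K (2 ^ (m + 1)) ≤ sval K (2 ^ m) :=
      hanti (Nat.pow_le_pow_right two_pos m.le_succ)
    have h2 : (1 / 4 : ℝ) ^ (m + 1) ≤ (1 / 4) ^ m :=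
      pow_le_pow_of_le_one (by norm_num) (by norm_num) m.le_succ
    have h3 := norm_sub_le (K - F m) (K - F (m + 1))
    rw [sub_sub_sub_cancel_left] at h3
    linarith [hFn m, hFn (m + 1)]
  · rw [tendsto_iff_norm_sub_tendsto_zero]
    refine squeeze_zero (fun _ => norm_nonneg _) (fun m => ?_)
      (hb.div_const (φ 1 j)).tendsto_atTop_zero
    rw [norm_sub_rev, mul_div_assoc]
    exact (hFn m).trans (le_mul_of_one_le_right (by have := h0 (2 ^ m); positivity) (hφ.one_le m))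

theorem Apy.cpt {K : H →L[ℂ] H} (h : Apy φ j K) : K ∈ cpt H := by
  refine EMetric.mem_closure_iff.2 fun ε hε => ?_
  obtain ⟨δ, h0, h1⟩ := exists_between hε
  obtain ⟨F, r, hF, h2, -⟩ := h δ h0
  exact ⟨F, ⟨r, hF⟩, by rw [edist_eq_enorm_sub]; exact h2.trans_lt h1⟩

omit [CompleteSpace H] in
theorem Apy.neg {A B : H →L[ℂ] H} (h : Apy φ j (A - B)) : Apy φ j (B - A) := by
  intro ε hε
  obtain ⟨F, r, hF, h1, h2⟩ := h ε hε
  have e : B - A - -F = -(A - B - F) := by abel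
  refine ⟨-F, r, by simpa using hF.left (-1), by rwa [e, enorm_neg], fun M v w hv hw => ?_⟩
  simpa only [e, neg_apply, inner_neg_right, enorm_neg] using h2 M v w hv hw

theorem key' (hφ : Wt φ θ)
    {A B : Fin n → H →L[ℂ] H} {U V : H →L[ℂ] H} (hA : ∀ j, IsSelfAdjoint (A j))
    (hc : ∀ j, Commute (B j) U)
    (hK : ∀ ε : ℝ≥0∞, 0 < ε → ∃ F r, Rk r F ∧ ‖U - V - F‖ₑ ≤ ε) {M : ℝ≥0}
    {v w : (Fin n → ℝ) → H}
    (hv : Frame φ M v) (hw : Frame φ M w) (dv : Flow φ A v) (dw : Flow φ A w) {c₀ : ℂ}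
    (hn : ∀ k, ⟪w k, V (v k)⟫_ℂ = c₀) :
    ‖⟪w 0, U (v 0)⟫_ℂ - c₀‖ₑ ≤ ∑ j,
      (Psi φ j (fun k => ‖⟪ContinuousLinearMap.adjoint U (w k), (A j - B j) (v k)⟫_ℂ‖ₑ) +
      Psi φ j (fun k => ‖⟪w k, (A j - B j) (U (v k))⟫_ℂ‖ₑ)) := by
  set α : (H →L[ℂ] H) → (Fin n → ℝ) → ℂ := fun K k =>
    ⟪ContinuousLinearMap.adjoint U (w k), K (v k)⟫_ℂ with hα
  set β : (H →L[ℂ] H) → (Fin n → ℝ) → ℂ := fun K k => ⟪w k, K (U (v k))⟫_ℂ with hβ
  have cv := hv.cont
  have cw := hw.cont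
  have ca : ∀ K, Continuous (α K) := fun K => by rw [hα]; fun_prop
  have cb : ∀ K, Continuous (β K) := fun K => by rw [hβ]; fun_prop
  set g : (H →L[ℂ] H) → (Fin n → ℝ) → ℝ≥0∞ := fun K k => ‖α K k‖ₑ + ‖β K k‖ₑ with hg
  have mg : ∀ K, Measurable (g K) := fun K => (ca _).measurable.enorm.add (cb _).measurable.enorm
  set G : ℕ → ℝ → (Fin n → ℝ) → ℝ≥0∞ := fun m x u =>
    ∑ j, ENNReal.ofReal (φ (m + 1) j - φ m j) * g (A j - B j) (seg φ m x u) with hG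
  have mG : ∀ m, Measurable fun z : ℝ × (Fin n → ℝ) => G m z.1 z.2 := fun m =>
    Finset.measurable_sum _ fun j _ => ((mg _).comp (seg_cont φ m).measurable).const_mul _
  set ψ : (Fin n → ℝ) → ℂ := fun k => ⟪w k, U (v k)⟫_ℂ with hψ
  have swap : ∀ j, ∀ x y : H, ⟪x, U (A j y)⟫_ℂ - ⟪A j x, U y⟫_ℂ =
      ⟪ContinuousLinearMap.adjoint U x, (A j - B j) y⟫_ℂ - ⟪x, (A j - B j) (U y)⟫_ℂ := by
    intro j x y
    have e : B j (U y) = U (B j y) := congrArg (fun T : H →L[ℂ] H => T y) (hc j).eq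
    simp only [ContinuousLinearMap.adjoint_inner_left, sa_inner (hA j), sub_apply,
      inner_sub_right, e]
    ring
  have step : ∀ u ∈ Q n, ∀ m : ℕ,
      ‖ψ (seg φ m 1 u) - ψ (seg φ m 0 u)‖ₑ ≤ ∫⁻ x in Ioc (0 : ℝ) 1, G m x u := by
    intro u hu m
    have cg : Continuous fun x : ℝ => seg φ m x u := (seg_cont φ m).comp (Continuous.prodMk_left u)
    have h1 := ftc_le (f := fun x : ℝ => ψ (seg φ m x u)) (f' := fun x : ℝ =>
      I * ∑ j, (((φ (m + 1) j - φ m j) * u j : ℝ) : ℂ) *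
        (α (A j - B j) (seg φ m x u) - β (A j - B j) (seg φ m x u))) (fun x => ?_)
      (continuous_const.mul (continuous_finsetSum _ fun j _ => by
        have := ca (A j - B j)
        have := cb (A j - B j)
        fun_prop)) 0 1
    · rw [uIoc_of_le zero_le_one] at h1
      refine h1.trans (lintegral_mono fun x => ?_)
      rw [enorm_mul, ← ofReal_norm I, norm_I, ENNReal.ofReal_one, one_mul]
      exact (enorm_sum_le _ _).trans (Finset.sum_le_sum fun j _ =>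
        wt_le' (sub_nonneg.2 (hφ.mono m j)) ⟨hu.1 j, hu.2 j⟩ _ _)
    · have h3 := (dw m u x).inner ℂ
        ((U.restrictScalars ℝ).hasFDerivAt.comp_hasDerivAt x (dv m u x))
      refine HasDerivAt.congr_deriv h3 ?_
      simp only [hα, hβ, ← swap, Function.comp, ContinuousLinearMap.coe_restrictScalars', map_smul,
        map_sum, inner_smul_left, inner_smul_right, inner_sum, sum_inner, conj_I, conj_ofReal,
        mul_sub, Finset.sum_sub_distrib]
      ring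
  have ray : ∀ u ∈ Q n, ∀ m : ℕ, ‖ψ (seg φ m 0 u) - ψ 0‖ₑ ≤
      ∑ i ∈ Finset.range m, ∫⁻ x in Ioc (0 : ℝ) 1, G i x u := by
    intro u hu m
    induction m with
    | zero =>
      have e : seg φ 0 0 u = 0 := funext fun j => by simp [seg, hφ.zero]
      simp [e]
    | succ m ih =>
      have e : seg φ (m + 1) 0 u = seg φ m 1 u := funext fun j => by simp [seg]
      rw [Finset.sum_range_succ, e, add_comm]
      exact le_trans (le_of_eq (by rw [sub_add_sub_cancel]))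
        ((enorm_add_le _ _).trans (add_le_add (step u hu m) ih))
  have mI : ∀ i, Measurable fun u => ∫⁻ x in Ioc (0 : ℝ) 1, G i x u := fun i =>
    Measurable.lintegral_prod_left' (f := fun z : ℝ × (Fin n → ℝ) => G i z.1 z.2) (mG i)
  refine le_trans (b := ∑ j, Psi φ j (g (A j - B j))) ?_
    (Finset.sum_le_sum fun j _ => Psi_add (ca _).measurable.enorm fun k => le_rfl)
  refine ENNReal.le_of_forall_pos_le_add fun δ hδ _ => ?_
  obtain ⟨s, hb⟩ := boundary hφ hK hv hw (ε := δ) (by exact_mod_cast hδ)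
  calc _ = ∫⁻ _ in Q n, ‖ψ 0 - c₀‖ₑ := by simp [volQ, hψ]
    _ ≤ ∫⁻ u in Q n, (‖⟪w (seg φ s 0 u), (U - V) (v (seg φ s 0 u))⟫_ℂ‖ₑ +
          ∑ i ∈ Finset.range s, ∫⁻ x in Ioc (0 : ℝ) 1, G i x u) := by
        refine setLIntegral_mono' measQ fun u hu => le_trans ?_ (add_le_add le_rfl (ray u hu s))
        rw [sub_apply, inner_sub_right, hn, enorm_sub_rev (ψ (seg φ s 0 u)) (ψ 0), add_comm]
        exact le_trans (le_of_eq (by rw [sub_add_sub_cancel])) (enorm_add_le _ _)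
    _ = (∫⁻ u in Q n, ‖⟪w (seg φ s 0 u), (U - V) (v (seg φ s 0 u))⟫_ℂ‖ₑ) +
          ∑ i ∈ Finset.range s, ∫⁻ x in Ioc (0 : ℝ) 1, ∫⁻ u in Q n, G i x u := by
        rw [lintegral_add_left (f := fun u => ‖⟪w (seg φ s 0 u), (U - V) (v (seg φ s 0 u))⟫_ℂ‖ₑ)
          ((meas_pair hv hw _).comp (seg_meas φ s 0)), lintegral_finsetSum _ fun i _ => mI i]
        congr 1
        exact Finset.sum_congr rfl fun i _ =>
          (lintegral_lintegral_swap (f := G i) (mG i).aemeasurable).symm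
    _ ≤ _ := by
        rw [add_comm]
        refine add_le_add ?_ hb
        refine le_trans (le_of_eq ?_) (Finset.sum_le_sum fun j _ =>
          ENNReal.sum_le_tsum (f := av φ j (g (A j - B j))) (Finset.range s))
        rw [Finset.sum_comm]
        refine Finset.sum_congr rfl fun i _ => ?_
        simp only [av]
        rw [Finset.sum_congr rfl fun j _ => (lintegral_const_mul _ (in_meas (mg (A j - B j)) i)).symm,
          ← lintegral_finsetSum _ fun j _ => (in_meas (mg (A j - B j)) i).const_mul _]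
        refine lintegral_congr fun x => ?_
        rw [hG, lintegral_finsetSum (f := fun j u => ENNReal.ofReal (φ (i + 1) j - φ i j) *
          g (A j - B j) (seg φ i x u)) _ fun j _ => ((mg _).comp (seg_meas φ i x)).const_mul _]
        exact Finset.sum_congr rfl fun j _ => lintegral_const_mul
          (f := fun u => g (A j - B j) (seg φ i x u)) _ ((mg _).comp (seg_meas φ i x))

end Pool.Agent.Work.MP_707689_an.N.G.F
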